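import Mathlib

/-!
# Pulsed diffusions on the flat two-torus: definitions

`T2 = ℝ²/ℤ²` with its normalised Haar (= Riemannian) measure, the Fourier eigenvalues
`lam k = 4π²|k|²` of `-Δ`, homogeneous Sobolev norms, exponential mixing and the pulsed diffusion
`θ_{n+1} = e^{νΔ}(θ_n ∘ φ)`.
-/

open MeasureTheory UnitAddTorus
open scoped ContDiff ComplexConjugate

attribute [local instance] instMeasureSpaceUnitAddCircle
attribute [local instance] instIsAddHaarMeasureUnitAddCircleVolume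
attribute [local instance] instIsProbabilityMeasureUnitAddCircleVolume

namespace Q187.Pulse

noncomputable section

/-- The flat two-torus `ℝ²/ℤ²`. -/
abbrev T2 := UnitAddTorus (Fin 2)

/-- The eigenvalue `4π²|k|²` of `-Δ` on the Fourier mode `x ↦ exp(2πi k·x)`. -/
def lam (k : Fin 2 → ℤ) : ℝ := 4 * Real.pi ^ 2 * ((k 0 : ℝ) ^ 2 + (k 1 : ℝ) ^ 2)

/-- The covering projection `ℝ² → ℝ²/ℤ²`. -/
def proj (x : Fin 2 → ℝ) : T2 := fun i => ((x i : ℝ) : UnitAddCircle)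

/-- A map of the torus is smooth: it lifts to a smooth map of the plane. -/
def IsSmoothMap (φ : T2 → T2) : Prop :=
  ∃ F : (Fin 2 → ℝ) → (Fin 2 → ℝ), ContDiff ℝ ∞ F ∧ ∀ x, φ (proj x) = proj (F x)

/-- A homeomorphism of the torus which is smooth together with its inverse. -/
def IsSmoothDiffeo (φ : T2 ≃ₜ T2) : Prop := IsSmoothMap φ ∧ IsSmoothMap φ.symm

/-- `f ∈ Ḣ^s`: square integrable, mean zero, `∑ (4π²|k|²)^s |f̂(k)|² < ∞`. -/
def InSob (s : ℝ) (f : T2 → ℂ) : Prop :=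
  MemLp f 2 (volume : Measure T2) ∧ ∫ x, f x = 0 ∧
    Summable fun k : Fin 2 → ℤ => lam k ^ s * ‖mFourierCoeff f k‖ ^ 2

/-- `‖f‖_s = ‖(-Δ)^{s/2} f‖ = (∑ (4π²|k|²)^s |f̂(k)|²)^{1/2}`. -/
def sobNorm (s : ℝ) (f : T2 → ℂ) : ℝ :=
  Real.sqrt (∑' k : Fin 2 → ℤ, lam k ^ s * ‖mFourierCoeff f k‖ ^ 2)

/-- Exponential decay of correlations in `Ḣ^α`, `Ḣ^β` for some `α, β > 0`. -/
def ExpMixing (φ : T2 → T2) : Prop :=
  ∃ α β c₁ c₂ : ℝ, 0 < α ∧ 0 < β ∧ 0 < c₁ ∧ 0 < c₂ ∧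
    ∀ (n : ℕ) (f g : T2 → ℂ), InSob α f → InSob β g →
      ‖∫ x, f (φ^[n] x) * conj (g x)‖ ≤
        c₁ * Real.exp (-(c₂ * n)) * sobNorm α f * sobNorm β g

/-- `θ` is a trajectory of the pulsed diffusion `θ_{n+1} = e^{νΔ} (θ_n ∘ φ)`; the heat semigroup
is described by its action on the Fourier coefficients. -/
def IsPulsed (φ : T2 → T2) (ν : ℝ) (θ : ℕ → T2 → ℂ) : Prop :=
  (∀ n, MemLp (θ n) 2 (volume : Measure T2)) ∧
    ∀ (n : ℕ) (k : Fin 2 → ℤ), mFourierCoeff (θ (n + 1)) k =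
      (Real.exp (-(ν * lam k)) : ℂ) * mFourierCoeff (fun x => θ n (φ x)) k

/-- The `L²` norm. -/
def l2norm (f : T2 → ℂ) : ℝ := Real.sqrt (∫ x, ‖f x‖ ^ 2)

end

end Q187.Pulse
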