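import Pool.Agent.Q187.Pulse.Growth

/-!
# If all traces vanish on an interval then the first shell sum vanishes
-/

open MeasureTheory UnitAddTorus
open scoped ContDiff ComplexConjugate

namespace Q187.Pulse

noncomputable section

/-- the function attached to a bounded family -/
def Sfun (u : (Fin 2 → ℤ) → ℂ) (z : ℂ) : ℂ :=
  ∑' k : Fin 2 → ℤ, (if k = 0 then 0 else z ^ nsq k * u k)

lemma term_bound (u : (Fin 2 → ℤ) → ℂ) (hu : ∀ k, ‖u k‖ ≤ 1) (r : ℝ) (z : ℂ) (hz : ‖z‖ ≤ r)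
    (k : Fin 2 → ℤ) : ‖(if k = 0 then 0 else z ^ nsq k * u k)‖ ≤ r ^ nsq k := by
  have hr : 0 ≤ r := (norm_nonneg z).trans hz
  split_ifs
  · rw [norm_zero]; positivity
  · rw [norm_mul, norm_pow]
    calc ‖z‖ ^ nsq k * ‖u k‖ ≤ r ^ nsq k * 1 := by gcongr; exact hu k
      _ = r ^ nsq k := mul_one _

lemma differentiableOn_Sfun (u : (Fin 2 → ℤ) → ℂ) (hu : ∀ k, ‖u k‖ ≤ 1) :
    DifferentiableOn ℂ (Sfun u) (Metric.ball 0 1) := by
  intro z hz
  rw [mem_ball_zero_iff] at hz
  obtain ⟨r, hr1, hr2⟩ := exists_between hz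
  have h0 : 0 ≤ r := (norm_nonneg z).trans hr1.le
  have h : DifferentiableOn ℂ (Sfun u) (Metric.ball 0 r) := by
    unfold Sfun
    refine Complex.differentiableOn_tsum_of_summable_norm (summable_nsq r h0 hr2) (fun k => ?_)
      Metric.isOpen_ball (fun k w hw => ?_)
    · by_cases hk : k = 0
      · simp only [hk, if_true]; exact differentiableOn_const _
      · simp only [hk, if_false]
        exact ((differentiable_id.pow _).mul_const _).differentiableOn
    · rw [mem_ball_zero_iff] at hw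
      exact term_bound u hu r w hw.le k
  have hz' : z ∈ Metric.ball (0 : ℂ) r := by rw [mem_ball_zero_iff]; exact hr1
  exact (h.differentiableAt (Metric.isOpen_ball.mem_nhds hz')).differentiableWithinAt

lemma Sfun_eq_zero (u : (Fin 2 → ℤ) → ℂ) (hu : ∀ k, ‖u k‖ ≤ 1) (q₀ : ℝ) (h0 : 0 ≤ q₀)
    (h1 : q₀ < 1) (h : ∀ q : ℝ, q₀ ≤ q → q < 1 → Sfun u (q : ℂ) = 0) (z : ℂ) (hz : ‖z‖ < 1) :
    Sfun u z = 0 := by
  have hd := differentiableOn_Sfun u hu
  have ha : AnalyticOnNhd ℂ (Sfun u) (Metric.ball 0 1) :=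
    hd.analyticOnNhd Metric.isOpen_ball
  obtain ⟨q, hq1, hq2⟩ := exists_between h1
  have hqm : (q : ℂ) ∈ Metric.ball (0 : ℂ) 1 := by
    rw [mem_ball_zero_iff, Complex.norm_real, Real.norm_eq_abs, abs_of_nonneg (h0.trans hq1.le)]
    exact hq2
  have hfr : ∃ᶠ w in nhdsWithin (q : ℂ) {(q : ℂ)}ᶜ, Sfun u w = 0 := by
    have ht : Filter.Tendsto (fun s : ℝ => (s : ℂ)) (nhdsWithin q (Set.Ioi q))
        (nhdsWithin (q : ℂ) {(q : ℂ)}ᶜ) := by
      refine tendsto_nhdsWithin_of_tendsto_nhds_of_eventually_within _ ?_ ?_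
      · exact (Complex.continuous_ofReal.tendsto q).mono_left nhdsWithin_le_nhds
      · filter_upwards [self_mem_nhdsWithin] with s hs
        simp only [Set.mem_compl_iff, Set.mem_singleton_iff, Complex.ofReal_inj]
        exact ne_of_gt hs
    refine ht.frequently (Filter.Eventually.frequently ?_)
    filter_upwards [Ioo_mem_nhdsGT hq2] with s hs
    exact h s (hq1.le.trans hs.1.le) hs.2
  have := ha.eqOn_zero_of_preconnected_of_frequently_eq_zero
    (convex_ball (0 : ℂ) 1).isPreconnected hqm hfr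
  exact this (by rw [mem_ball_zero_iff]; exact hz)

/-- the first shell -/
def shell : Finset (Fin 2 → ℤ) := {![1, 0], ![-1, 0], ![0, 1], ![0, -1]}

lemma nsq_shell {k : Fin 2 → ℤ} (hk : k ∈ shell) : nsq k = 1 := by
  simp only [shell, Finset.mem_insert, Finset.mem_singleton] at hk
  rcases hk with h | h | h | h <;> subst h <;> simp [nsq]

lemma ne_zero_of_mem_shell {k : Fin 2 → ℤ} (hk : k ∈ shell) : k ≠ 0 := by
  rintro rfl
  have := nsq_shell hk
  simp [nsq] at this

lemma two_le_nsq {k : Fin 2 → ℤ} (hk : k ∉ shell) (h0 : k ≠ 0) : 2 ≤ nsq k := by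
  by_contra hlt
  push Not at hlt
  have h1 : (k 0).natAbs ^ 2 + (k 1).natAbs ^ 2 < 2 := hlt
  have ha : (k 0).natAbs < 2 := by
    by_contra h; push Not at h
    have := Nat.pow_le_pow_left h 2
    omega
  have hb : (k 1).natAbs < 2 := by
    by_contra h; push Not at h
    have := Nat.pow_le_pow_left h 2
    omega
  have hkk : ∀ a b : ℤ, k 0 = a → k 1 = b → k = ![a, b] := by
    intro a b h1 h2
    funext i
    fin_cases i
    · simpa using h1
    · simpa using h2
  have hca : (k 0) = 0 ∨ k 0 = 1 ∨ k 0 = -1 := by omega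
  have hcb : (k 1) = 0 ∨ k 1 = 1 ∨ k 1 = -1 := by omega
  rcases hca with h2 | h2 | h2 <;> rcases hcb with h3 | h3 | h3
  · exact h0 (by rw [hkk _ _ h2 h3]; funext i; fin_cases i <;> rfl)
  · exact hk (by rw [hkk _ _ h2 h3]; simp [shell])
  · exact hk (by rw [hkk _ _ h2 h3]; simp [shell])
  · exact hk (by rw [hkk _ _ h2 h3]; simp [shell])
  · rw [h2, h3] at h1; simp at h1
  · rw [h2, h3] at h1; simp at h1
  · exact hk (by rw [hkk _ _ h2 h3]; simp [shell])
  · rw [h2, h3] at h1; simp at h1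
  · rw [h2, h3] at h1; simp at h1

theorem shell_sum_eq_zero (u : (Fin 2 → ℤ) → ℂ) (hu : ∀ k, ‖u k‖ ≤ 1) (q₀ : ℝ) (h0 : 0 ≤ q₀)
    (h1 : q₀ < 1) (h : ∀ q : ℝ, q₀ ≤ q → q < 1 → Sfun u (q : ℂ) = 0) :
    ∑ k ∈ shell, u k = 0 := by
  classical
  have hs2 := summable_nsq (1 / 2) (by norm_num) (by norm_num)
  set K : ℝ := ∑' k : {k // k ∉ shell}, (1 / 2 : ℝ) ^ nsq k.1 with hK
  have hK0 : 0 ≤ K := tsum_nonneg fun k => by positivity
  have key : ∀ t : ℝ, 0 < t → t ≤ 1 / 2 → ‖∑ k ∈ shell, u k‖ ≤ t * (4 * K) := by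
    intro t ht ht2
    have hS := Sfun_eq_zero u hu q₀ h0 h1 h (t : ℂ) (by
      rw [Complex.norm_real, Real.norm_eq_abs, abs_of_pos ht]; linarith)
    have hnt : ‖(t : ℂ)‖ = t := by rw [Complex.norm_real, Real.norm_eq_abs, abs_of_pos ht]
    set f : (Fin 2 → ℤ) → ℂ := fun k => if k = 0 then 0 else (t : ℂ) ^ nsq k * u k with hf
    have hfs : Summable f := by
      refine Summable.of_norm_bounded (summable_nsq t ht.le (by linarith)) fun k => ?_
      exact term_bound u hu t t hnt.le k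
    have hsplit := hfs.sum_add_tsum_subtype_compl shell
    have hS' : ∑' k, f k = 0 := hS
    rw [hS'] at hsplit
    have e1 : ∑ k ∈ shell, f k = t * ∑ k ∈ shell, u k := by
      rw [Finset.mul_sum]
      refine Finset.sum_congr rfl fun k hk => ?_
      simp only [hf, ne_zero_of_mem_shell hk, if_false, nsq_shell hk, pow_one]
    have e2 : ‖∑' k : {k // k ∉ shell}, f k‖ ≤ t ^ 2 * 4 * K := by
      refine tsum_of_norm_bounded
        (((hs2.comp_injective Subtype.val_injective).hasSum).mul_left (t ^ 2 * 4)) fun k => ?_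
      show ‖f k‖ ≤ t ^ 2 * 4 * (1 / 2) ^ nsq k.1
      by_cases hk0 : k.1 = 0
      · simp only [hf, hk0, if_true, norm_zero]; positivity
      · refine (term_bound u hu t t hnt.le k.1).trans ?_
        obtain ⟨m, hm⟩ := Nat.exists_eq_add_of_le (two_le_nsq k.2 hk0)
        rw [hm, pow_add, pow_add]
        have : t ^ m ≤ (1 / 2) ^ m := by gcongr
        calc t ^ 2 * t ^ m ≤ t ^ 2 * (1 / 2) ^ m := by gcongr
          _ = t ^ 2 * 4 * ((1 / 2) ^ 2 * (1 / 2) ^ m) := by ring
    have e3 : (t : ℂ) * ∑ k ∈ shell, u k = -∑' k : {k // k ∉ shell}, f k := by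
      rw [← e1]; exact eq_neg_of_add_eq_zero_left hsplit
    have e4 : t * ‖∑ k ∈ shell, u k‖ ≤ t * (t * (4 * K)) := by
      calc t * ‖∑ k ∈ shell, u k‖ = ‖(t : ℂ) * ∑ k ∈ shell, u k‖ := by rw [norm_mul, hnt]
        _ = ‖∑' k : {k // k ∉ shell}, f k‖ := by rw [e3, norm_neg]
        _ ≤ t ^ 2 * 4 * K := e2
        _ = t * (t * (4 * K)) := by ring
    exact le_of_mul_le_mul_left e4 ht
  have hle : ‖∑ k ∈ shell, u k‖ ≤ 0 := by
    refine le_of_forall_pos_le_add fun ε hε => ?_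
    rw [zero_add]
    have hK4 : 0 < 4 * K + 1 := by positivity
    have ht : 0 < min (1 / 2) (ε / (4 * K + 1)) := lt_min (by norm_num) (by positivity)
    refine (key _ ht (min_le_left _ _)).trans ?_
    calc min (1 / 2) (ε / (4 * K + 1)) * (4 * K) ≤ ε / (4 * K + 1) * (4 * K + 1) := by
          gcongr
          · exact min_le_right _ _
          · linarith
      _ = ε := by field_simp
  exact norm_le_zero_iff.mp hle

end

end Q187.Pulse
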