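import Pool.Agent.Q187.Pulse.Map
import Pool.Agent.Q187.Pulse.Ident

/-!
# The first shell sum of the example is `2 J₀(1) J₁(1) ≠ 0`
-/

open MeasureTheory UnitAddTorus
open scoped ContDiff ComplexConjugate

attribute [local instance] instMeasureSpaceUnitAddCircle
attribute [local instance] instIsAddHaarMeasureUnitAddCircleVolume
attribute [local instance] instIsProbabilityMeasureUnitAddCircleVolume

namespace Q187.Pulse

noncomputable section

/-- the first character of the circle -/
def ch (t : UnitAddCircle) : ℂ := fourier 1 t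

lemma continuous_ch : Continuous ch := (fourier 1).continuous

lemma ch_add (s t : UnitAddCircle) : ch (s + t) = ch s * ch t := by
  simp [ch, AddCircle.toCircle_add]

lemma ch_neg (t : UnitAddCircle) : ch (-t) = conj (ch t) := by
  simp only [ch, fourier_one]
  rw [AddCircle.toCircle_neg, Circle.coe_inv_eq_conj]

lemma norm_ch (t : UnitAddCircle) : ‖ch t‖ = 1 := by
  unfold ch; rw [fourier_one]; exact Circle.norm_coe _

lemma ch_mul_conj (t : UnitAddCircle) : conj (ch t) * ch t = 1 := by
  rw [mul_comm, Complex.mul_conj, Complex.normSq_eq_norm_sq, norm_ch]; simp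

lemma ch_half : ch ((1 / 2 : ℝ) : UnitAddCircle) = -1 := by
  unfold ch
  rw [fourier_coe_apply]
  have : (2 * (Real.pi : ℂ) * Complex.I * ((1 : ℤ) : ℂ) * ((1 / 2 : ℝ) : ℂ) / ((1 : ℝ) : ℂ))
      = Real.pi * Complex.I := by push_cast; ring
  rw [this, Complex.exp_pi_mul_I]

lemma ch_quarter : ch ((1 / 4 : ℝ) : UnitAddCircle) = Complex.I := by
  unfold ch
  rw [fourier_coe_apply]
  have : (2 * (Real.pi : ℂ) * Complex.I * ((1 : ℤ) : ℂ) * ((1 / 4 : ℝ) : ℂ) / ((1 : ℝ) : ℂ))
      = Real.pi / 2 * Complex.I := by push_cast; ring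
  rw [this, Complex.exp_pi_div_two_mul_I]

lemma ch_half_sub (t : UnitAddCircle) :
    ch (((1 / 2 : ℝ) : UnitAddCircle) - t) = -conj (ch t) := by
  rw [sub_eq_add_neg, ch_add, ch_half, ch_neg]; ring

/-- `exp(i sin(2πt))` -/
def Ex (t : UnitAddCircle) : ℂ := Complex.exp (((ch t).im : ℂ) * Complex.I)

lemma continuous_Ex : Continuous Ex := by
  unfold Ex
  have := continuous_ch
  fun_prop

lemma norm_Ex (t : UnitAddCircle) : ‖Ex t‖ = 1 := Complex.norm_exp_ofReal_mul_I _

lemma ch_sr (t : UnitAddCircle) : ch ((sr t : ℝ) : UnitAddCircle) = Ex t := by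
  unfold ch Ex
  rw [fourier_coe_apply]
  congr 1
  unfold sr ch
  push_cast
  have : (Real.pi : ℂ) ≠ 0 := by exact_mod_cast Real.pi_ne_zero
  field_simp

lemma mFourier_two (k : Fin 2 → ℤ) (x : T2) :
    mFourier k x = fourier (k 0) (x 0) * fourier (k 1) (x 1) := by
  simp [mFourier, Fin.prod_univ_two]

lemma integral_mFourier {k : Fin 2 → ℤ} (hk : k ≠ 0) : ∫ x : T2, mFourier k x = 0 := by
  have h : inner ℂ (bas 0) (bas k) = 0 := bas.orthonormal.2 (i := 0) (j := k) (Ne.symm hk)
  rw [L2.inner_def] at h
  rw [← h]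
  refine integral_congr_ae ?_
  have h1 : ∀ j, (bas j : L2T) =ᵐ[volume] mFourier j := by
    intro j
    rw [show bas j = mFourierLp 2 j from congrFun coe_mFourierBasis j]
    exact coeFn_mFourierLp 2 j
  filter_upwards [h1 0, h1 k] with x h2 h3
  rw [h2, h3, RCLike.inner_apply, mFourier_zero]
  simp

/-- change of variables in the diagonal entries -/
lemma uk_phi (k : Fin 2 → ℤ) :
    uk phi k = ∫ y : T2, conj (mFourier k (hFun y)) * mFourier k (hFun (aFun y)) := by
  unfold uk
  rw [← integral_comp_hFun]
  refine integral_congr_ae (Filter.Eventually.of_forall fun y => ?_)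
  simp only [phi_hFun]

lemma uk_neg (φ : T2 → T2) (k : Fin 2 → ℤ) : uk φ (-k) = conj (uk φ k) := by
  unfold uk
  rw [← integral_conj]
  refine integral_congr_ae (Filter.Eventually.of_forall fun y => ?_)
  simp only [mFourier_neg, map_mul, Complex.conj_conj]

lemma uk_phi_10 : uk phi ![1, 0] = 0 := by
  rw [uk_phi]
  have : ∀ y : T2, conj (mFourier ![1, 0] (hFun y)) * mFourier ![1, 0] (hFun (aFun y))
      = mFourier ![1, 1] y := by
    intro y
    simp only [mFourier_two, Matrix.cons_val_zero, Matrix.cons_val_one, fourier_zero, mul_one,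
      hFun_zero, aFun_zero]
    change conj (ch (y 0)) * ch (2 • y 0 + y 1) = ch (y 0) * ch (y 1)
    rw [two_smul, ch_add, ch_add]
    linear_combination (ch (y 0) * ch (y 1)) * ch_mul_conj (y 0)
  simp_rw [this]
  refine integral_mFourier ?_
  intro h
  have := congrFun h 0
  simp at this

/-- Fubini for a skew product of functions -/
lemma integral_skew (F G : UnitAddCircle → ℂ) (hF : Continuous F) (hG : Continuous G) :
    ∫ y : T2, F (y 0) * G (2 • y 0 + y 1) = (∫ t, F t) * ∫ t, G t := by
  have e := measurePreserving_finTwoArrow (volume : Measure UnitAddCircle)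
  have e2 : ∫ y : T2, F (y 0) * G (2 • y 0 + y 1)
      = ∫ p : UnitAddCircle × UnitAddCircle, F p.1 * G (2 • p.1 + p.2)
        ∂((volume : Measure UnitAddCircle).prod volume) := by
    rw [← e.integral_comp (MeasurableEquiv.measurableEmbedding _)]
    rfl
  have hint : Integrable (fun p : UnitAddCircle × UnitAddCircle => F p.1 * G (2 • p.1 + p.2))
      ((volume : Measure UnitAddCircle).prod volume) := by
    have hc : Continuous (fun p : UnitAddCircle × UnitAddCircle => F p.1 * G (2 • p.1 + p.2)) := by
      refine (hF.comp continuous_fst).mul (hG.comp ?_)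
      exact (continuous_fst.nsmul 2).add continuous_snd
    exact hc.integrable_of_hasCompactSupport (HasCompactSupport.of_compactSpace _)
  rw [e2, integral_prod _ hint]
  have : ∀ a : UnitAddCircle, ∫ b, F a * G (2 • a + b) = F a * ∫ t, G t := by
    intro a
    rw [integral_const_mul, integral_add_left_eq_self (fun b => G b)]
  simp_rw [this]
  rw [integral_mul_const]

lemma uk_phi_01 : uk phi ![0, 1] = (∫ t, ch t * conj (Ex t)) * ∫ t, Ex t := by
  rw [uk_phi, ← integral_skew (fun t => ch t * conj (Ex t)) Ex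
    (continuous_ch.mul (continuous_Ex.star)) continuous_Ex]
  refine integral_congr_ae (Filter.Eventually.of_forall fun y => ?_)
  simp only [mFourier_two, Matrix.cons_val_zero, Matrix.cons_val_one, fourier_zero, one_mul,
    hFun_one, aFun_one, aFun_zero]
  change conj (ch (y 1 + _)) * ch (y 0 + y 1 + _) = _
  rw [ch_add, ch_add, ch_add, ch_sr, ch_sr, map_mul]
  linear_combination (conj (Ex (y 0)) * ch (y 0) * Ex (2 • y 0 + y 1)) * ch_mul_conj (y 1)

/-! ### positivity -/

/-- cosine and sine on the circle -/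
def cc (t : UnitAddCircle) : ℝ := (ch t).re
def ss (t : UnitAddCircle) : ℝ := (ch t).im

lemma continuous_cc : Continuous cc := Complex.continuous_re.comp continuous_ch
lemma continuous_ss : Continuous ss := Complex.continuous_im.comp continuous_ch

lemma cc_neg (t : UnitAddCircle) : cc (-t) = cc t := by simp [cc, ch_neg]
lemma ss_neg (t : UnitAddCircle) : ss (-t) = -ss t := by simp [ss, ch_neg]
lemma cc_half_sub (t : UnitAddCircle) : cc (((1 / 2 : ℝ) : UnitAddCircle) - t) = -cc t := by
  unfold cc; rw [ch_half_sub]; simp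
lemma ss_half_sub (t : UnitAddCircle) : ss (((1 / 2 : ℝ) : UnitAddCircle) - t) = ss t := by
  unfold ss; rw [ch_half_sub]; simp

lemma abs_ss_le (t : UnitAddCircle) : |ss t| ≤ 1 := by
  have := Complex.abs_im_le_norm (ch t)
  rwa [norm_ch] at this

lemma Ex_re (t : UnitAddCircle) : (Ex t).re = Real.cos (ss t) := Complex.exp_ofReal_mul_I_re _
lemma Ex_im (t : UnitAddCircle) : (Ex t).im = Real.sin (ss t) := Complex.exp_ofReal_mul_I_im _

lemma integrable_of_cont {E : Type*} [NormedAddCommGroup E] {f : UnitAddCircle → E}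
    (hf : Continuous f) : Integrable f (volume : Measure UnitAddCircle) :=
  hf.integrable_of_hasCompactSupport (HasCompactSupport.of_compactSpace _)

lemma J0_im : (∫ t, Ex t).im = 0 := by
  have h := integral_im (𝕜 := ℂ) (integrable_of_cont continuous_Ex)
  have h' : (∫ t, Ex t).im = ∫ t, Real.sin (ss t) := by
    rw [show (∫ t, Ex t).im = RCLike.im (∫ t, Ex t) from rfl, ← h]
    refine integral_congr_ae (Filter.Eventually.of_forall fun y => ?_)
    exact Ex_im y
  rw [h']
  have h2 : ∫ t : UnitAddCircle, Real.sin (ss (-t)) = ∫ t, Real.sin (ss t) :=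
    integral_neg_eq_self (fun t => Real.sin (ss t)) volume
  simp only [ss_neg, Real.sin_neg, integral_neg] at h2
  linarith

lemma J0_re : 0 < (∫ t, Ex t).re := by
  have h := integral_re (𝕜 := ℂ) (integrable_of_cont continuous_Ex)
  have h' : (∫ t, Ex t).re = ∫ t, Real.cos (ss t) := by
    rw [show (∫ t, Ex t).re = RCLike.re (∫ t, Ex t) from rfl, ← h]
    refine integral_congr_ae (Filter.Eventually.of_forall fun y => ?_)
    exact Ex_re y
  rw [h']
  have hpos : ∀ t, 0 < Real.cos (ss t) := fun t => by
    have := abs_le.mp (abs_ss_le t)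
    refine Real.cos_pos_of_mem_Ioo ⟨?_, ?_⟩
    · linarith [Real.pi_gt_three]
    · linarith [Real.pi_gt_three]
  refine Continuous.integral_pos_of_hasCompactSupport_nonneg_nonzero
    (Real.continuous_cos.comp continuous_ss) (HasCompactSupport.of_compactSpace _)
    (fun t => (hpos t).le) (x := 0) (hpos 0).ne'

lemma J1_re : 0 < (∫ t, ch t * conj (Ex t)).re := by
  have hc : Continuous fun t => ch t * conj (Ex t) := continuous_ch.mul continuous_Ex.star
  have h := integral_re (𝕜 := ℂ) (integrable_of_cont hc)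
  have h' : (∫ t, ch t * conj (Ex t)).re
      = ∫ t, (cc t * Real.cos (ss t) + ss t * Real.sin (ss t)) := by
    rw [show (∫ t, ch t * conj (Ex t)).re = RCLike.re (∫ t, ch t * conj (Ex t)) from rfl, ← h]
    refine integral_congr_ae (Filter.Eventually.of_forall fun y => ?_)
    show (ch y * conj (Ex y)).re = _
    rw [Complex.mul_re, Complex.conj_re, Complex.conj_im, Ex_re, Ex_im]
    show cc y * Real.cos (ss y) - ss y * -Real.sin (ss y) = _
    ring
  rw [h']
  have i1 : Integrable (fun t => cc t * Real.cos (ss t)) (volume : Measure UnitAddCircle) :=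
    integrable_of_cont (continuous_cc.mul (Real.continuous_cos.comp continuous_ss))
  have c2 : Continuous (fun t => ss t * Real.sin (ss t)) :=
    continuous_ss.mul (Real.continuous_sin.comp continuous_ss)
  rw [integral_add i1 (integrable_of_cont c2)]
  have z1 : ∫ t, cc t * Real.cos (ss t) = 0 := by
    have h2 := integral_sub_left_eq_self (fun t => cc t * Real.cos (ss t))
      (volume : Measure UnitAddCircle) ((1 / 2 : ℝ) : UnitAddCircle)
    simp only [cc_half_sub, ss_half_sub, neg_mul, integral_neg] at h2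
    linarith
  rw [z1, zero_add]
  refine Continuous.integral_pos_of_hasCompactSupport_nonneg_nonzero c2
    (HasCompactSupport.of_compactSpace _) (fun t => ?_)
    (x := ((1 / 4 : ℝ) : UnitAddCircle)) ?_
  · have hb := abs_le.mp (abs_ss_le t)
    show 0 ≤ ss t * Real.sin (ss t)
    rcases le_total 0 (ss t) with h0 | h0
    · exact mul_nonneg h0 (Real.sin_nonneg_of_nonneg_of_le_pi h0
        (by linarith [Real.pi_gt_three]))
    · exact mul_nonneg_of_nonpos_of_nonpos h0 (Real.sin_nonpos_of_nonpos_of_neg_pi_le h0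
        (by linarith [Real.pi_gt_three]))
  · have : ss ((1 / 4 : ℝ) : UnitAddCircle) = 1 := by unfold ss; rw [ch_quarter]; simp
    rw [this, one_mul]
    exact (Real.sin_pos_of_pos_of_lt_pi one_pos (by linarith [Real.pi_gt_three])).ne'

theorem shell_sum_ne_zero : ∑ k ∈ shell, uk phi k ≠ 0 := by
  have e1 : (![-1, 0] : Fin 2 → ℤ) = -![1, 0] := by funext i; fin_cases i <;> simp
  have e2 : (![0, -1] : Fin 2 → ℤ) = -![0, 1] := by funext i; fin_cases i <;> simp
  have hsum : ∑ k ∈ shell, uk phi k
      = uk phi ![1, 0] + uk phi ![-1, 0] + uk phi ![0, 1] + uk phi ![0, -1] := by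
    unfold shell
    rw [Finset.sum_insert, Finset.sum_insert, Finset.sum_insert, Finset.sum_singleton]
    · ring
    · simp
    · simp
    · simp
  rw [hsum, e1, e2, uk_neg, uk_neg, uk_phi_10, uk_phi_01, map_zero, zero_add, zero_add]
  intro h
  have h2 := congrArg Complex.re h
  rw [Complex.add_re, Complex.conj_re, Complex.mul_re, J0_im, mul_zero, sub_zero,
    Complex.zero_re] at h2
  have := mul_pos J1_re J0_re
  linarith

end

end Q187.Pulse
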