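import Pool.Agent.Q187.Pulse.Bessel

/-!
# Fourier coefficients of the sheared characters and their correlations
-/

open MeasureTheory UnitAddTorus
open scoped ContDiff ComplexConjugate

attribute [local instance] instMeasureSpaceUnitAddCircle
attribute [local instance] instIsAddHaarMeasureUnitAddCircleVolume
attribute [local instance] instIsProbabilityMeasureUnitAddCircleVolume

namespace Q187.Pulse

noncomputable section

/-- `|k₀| + |k₁|` -/
def n1 (k : Fin 2 → ℤ) : ℝ := |(k 0 : ℝ)| + |(k 1 : ℝ)|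

lemma n1_nonneg (k : Fin 2 → ℤ) : 0 ≤ n1 k := by unfold n1; positivity

lemma one_le_n1 {k : Fin 2 → ℤ} (hk : k ≠ 0) : 1 ≤ n1 k := by
  unfold n1
  by_cases h0 : k 0 = 0
  · have h1 : k 1 ≠ 0 := by
      intro h1; apply hk; funext i; fin_cases i
      · exact h0
      · exact h1
    have : (1 : ℝ) ≤ |(k 1 : ℝ)| := by exact_mod_cast Int.one_le_abs h1
    have h2 := abs_nonneg (k 0 : ℝ)
    linarith
  · have : (1 : ℝ) ≤ |(k 0 : ℝ)| := by exact_mod_cast Int.one_le_abs h0
    have h2 := abs_nonneg (k 1 : ℝ)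
    linarith

/-- the sheared character -/
def Fk (k : Fin 2 → ℤ) (y : T2) : ℂ := mFourier k (hFun y)

lemma continuous_Fk (k : Fin 2 → ℤ) : Continuous (Fk k) :=
  (mFourier k).continuous.comp continuous_hFun

lemma norm_mFourier_apply (k : Fin 2 → ℤ) (y : T2) : ‖mFourier k y‖ = 1 := by
  rw [mFourier_two, norm_mul, fourier_apply, fourier_apply, Circle.norm_coe, Circle.norm_coe,
    one_mul]

lemma norm_Fk (k : Fin 2 → ℤ) (y : T2) : ‖Fk k y‖ = 1 := norm_mFourier_apply _ _

lemma fourier_add_arg (n : ℤ) (x y : UnitAddCircle) :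
    (fourier n (x + y) : ℂ) = fourier n x * fourier n y := by
  simp [fourier_apply, AddCircle.toCircle_add, smul_add]

lemma integral_prod2 (F G : UnitAddCircle → ℂ) :
    ∫ y : T2, F (y 0) * G (y 1) = (∫ t, F t) * ∫ t, G t := by
  have := integral_fintype_prod_volume_eq_prod (ι := Fin 2) (E := fun _ => UnitAddCircle)
    (𝕜 := ℂ) ![F, G]
  simpa [Fin.prod_univ_two] using this

/-- the one-dimensional coefficient -/
def cf (m p : ℤ) : ℂ := ∫ t : UnitAddCircle, fourier m t * fourier p ((sr t : ℝ) : UnitAddCircle)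

lemma integral_fourier_ne {n : ℤ} (hn : n ≠ 0) : ∫ t : UnitAddCircle, (fourier n t : ℂ) = 0 := by
  have h := integral_mFourier (k := ![n, 0]) (by
    intro h; exact hn (by simpa using congrFun h 0))
  have h2 : ∫ x : T2, mFourier ![n, 0] x
      = (∫ t : UnitAddCircle, (fourier n t : ℂ)) * ∫ t : UnitAddCircle, (1 : ℂ) := by
    rw [← integral_prod2]
    refine integral_congr_ae (Filter.Eventually.of_forall fun y => ?_)
    simp only [mFourier_two, Matrix.cons_val_zero, Matrix.cons_val_one, fourier_zero]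
  rw [h2] at h
  simpa using h

lemma coef_Fk (k j : Fin 2 → ℤ) : mFourierCoeff (Fk k) j
    = cf (k 0 - j 0) (k 1) * ∫ t : UnitAddCircle, (fourier (k 1 - j 1) t : ℂ) := by
  unfold mFourierCoeff cf
  rw [← integral_prod2]
  refine integral_congr_ae (Filter.Eventually.of_forall fun y => ?_)
  simp only [Fk, mFourier_two, hFun_zero, hFun_one, fourier_add_arg, smul_eq_mul, Pi.neg_apply]
  rw [sub_eq_add_neg, sub_eq_add_neg, fourier_add, fourier_add]
  ring

lemma coef_Fk_ne {k j : Fin 2 → ℤ} (h : j 1 ≠ k 1) : mFourierCoeff (Fk k) j = 0 := by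
  rw [coef_Fk, integral_fourier_ne (sub_ne_zero.mpr (Ne.symm h)), mul_zero]

lemma norm_coef_le (f : T2 → ℂ) (hf : ∀ y, ‖f y‖ = 1) (j : Fin 2 → ℤ) :
    ‖mFourierCoeff f j‖ ≤ 1 := by
  unfold mFourierCoeff
  refine (norm_integral_le_of_norm_le_const (C := 1)
    (Filter.Eventually.of_forall fun y => ?_)).trans (by simp)
  rw [smul_eq_mul, norm_mul, norm_mFourier_apply, hf, one_mul]

/-- the crucial one dimensional integration by parts -/
lemma abs_mul_norm_cf_le (m p : ℤ) : |(m : ℝ)| * ‖cf m p‖ ≤ |(p : ℝ)| := by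
  set G : ℝ → ℂ := fun x => Complex.exp (((2 * Real.pi * m * x + p * Real.sin (2 * Real.pi * x) :
    ℝ) : ℂ) * Complex.I) with hG
  have hGn : ∀ x, ‖G x‖ = 1 := fun x => Complex.norm_exp_ofReal_mul_I _
  have hcf : cf m p = ∫ x in (0 : ℝ)..1, G x := by
    have h1 := fourierCoeff_eq_intervalIntegral (T := 1)
      (fun t : UnitAddCircle => (fourier p ((sr t : ℝ) : UnitAddCircle) : ℂ)) (-m) 0
    have h2 : cf m p = fourierCoeff
      (fun t : UnitAddCircle => (fourier p ((sr t : ℝ) : UnitAddCircle) : ℂ)) (-m) := by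
      unfold cf fourierCoeff
      rw [neg_neg]
      rfl
    rw [h2, h1, neg_neg, zero_add]
    simp only [div_one, one_smul]
    refine intervalIntegral.integral_congr fun x _ => ?_
    simp only [hG]
    rw [fourier_coe_apply, fourier_coe_apply, sr_coe, smul_eq_mul, ← Complex.exp_add]
    congr 1
    have : (Real.pi : ℂ) ≠ 0 := by exact_mod_cast Real.pi_ne_zero
    push_cast
    field_simp
  have hderiv : ∀ x : ℝ, HasDerivAt G
      (2 * Real.pi * Complex.I * (m * G x + p * ((Real.cos (2 * Real.pi * x) : ℝ) * G x))) x := by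
    intro x
    have h1 : HasDerivAt (fun x : ℝ => 2 * Real.pi * m * x + p * Real.sin (2 * Real.pi * x))
        (2 * Real.pi * m + p * (Real.cos (2 * Real.pi * x) * (2 * Real.pi))) x := by
      have h2 : HasDerivAt (fun x : ℝ => 2 * Real.pi * x) (2 * Real.pi) x := by
        simpa using (hasDerivAt_id x).const_mul (2 * Real.pi)
      have h3 : HasDerivAt (fun x : ℝ => 2 * Real.pi * m * x) (2 * Real.pi * m) x := by
        simpa using (hasDerivAt_id x).const_mul (2 * Real.pi * (m : ℝ))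
      exact h3.add ((h2.sin).const_mul _)
    have h4 := ((h1.ofReal_comp).mul_const Complex.I).cexp
    convert h4 using 1
    simp only [hG]
    push_cast
    ring
  have hcont : Continuous G := by simp only [hG]; fun_prop
  have hint : ∫ x in (0 : ℝ)..1,
      (2 * Real.pi * Complex.I * (m * G x + p * ((Real.cos (2 * Real.pi * x) : ℝ) * G x)))
      = 0 := by
    rw [intervalIntegral.integral_eq_sub_of_hasDerivAt (fun x _ => hderiv x)
      (Continuous.intervalIntegrable (by fun_prop) _ _)]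
    simp only [hG]
    have e1 : (2 * Real.pi * m * 1 + p * Real.sin (2 * Real.pi * 1) : ℝ) = 2 * Real.pi * m := by
      rw [mul_one, mul_one, Real.sin_two_pi]; ring
    have e0 : (2 * Real.pi * m * 0 + p * Real.sin (2 * Real.pi * 0) : ℝ) = 0 := by simp
    rw [e1, e0]
    have e2 : ((2 * Real.pi * m : ℝ) : ℂ) * Complex.I = m * (2 * Real.pi * Complex.I) := by
      push_cast; ring
    rw [e2, Complex.exp_int_mul_two_pi_mul_I]
    simp
  have hint2 : (m : ℂ) * ∫ x in (0 : ℝ)..1, G x
      = -(p * ∫ x in (0 : ℝ)..1, ((Real.cos (2 * Real.pi * x) : ℝ) * G x)) := by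
    rw [intervalIntegral.integral_const_mul, intervalIntegral.integral_add
      (Continuous.intervalIntegrable (by fun_prop) _ _)
      (Continuous.intervalIntegrable (by fun_prop) _ _),
      intervalIntegral.integral_const_mul, intervalIntegral.integral_const_mul] at hint
    have hne : (2 * Real.pi * Complex.I : ℂ) ≠ 0 := Complex.two_pi_I_ne_zero
    have := (mul_eq_zero.mp hint).resolve_left hne
    exact eq_neg_of_add_eq_zero_left this
  have hb : ‖∫ x in (0 : ℝ)..1, ((Real.cos (2 * Real.pi * x) : ℝ) * G x)‖ ≤ 1 := by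
    have := intervalIntegral.norm_integral_le_of_norm_le_const (a := 0) (b := 1) (C := 1)
      (f := fun x => ((Real.cos (2 * Real.pi * x) : ℝ) * G x)) (fun x _ => by
        rw [norm_mul, hGn, mul_one, Complex.norm_real, Real.norm_eq_abs]
        exact Real.abs_cos_le_one _)
    simpa using this
  calc |(m : ℝ)| * ‖cf m p‖ = ‖(m : ℂ) * ∫ x in (0 : ℝ)..1, G x‖ := by
        rw [norm_mul, hcf, Complex.norm_intCast]
    _ = |(p : ℝ)| * ‖∫ x in (0 : ℝ)..1, ((Real.cos (2 * Real.pi * x) : ℝ) * G x)‖ := by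
        rw [hint2, norm_neg, norm_mul, Complex.norm_intCast]
    _ ≤ |(p : ℝ)| * 1 := by gcongr
    _ = |(p : ℝ)| := mul_one _

lemma n1_mul_coef_le (k j : Fin 2 → ℤ) : n1 j * ‖mFourierCoeff (Fk k) j‖ ≤ 2 * n1 k := by
  by_cases h : j 1 = k 1
  · have h1 := norm_coef_le (Fk k) (norm_Fk k) j
    have h2 : mFourierCoeff (Fk k) j = cf (k 0 - j 0) (k 1) := by
      rw [coef_Fk, h, sub_self]; simp
    have h3 := abs_mul_norm_cf_le (k 0 - j 0) (k 1)
    rw [← h2] at h3
    push_cast at h3
    have h4 : |(j 0 : ℝ)| ≤ |(k 0 : ℝ)| + |(k 0 : ℝ) - j 0| := by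
      have := abs_sub_abs_le_abs_sub (j 0 : ℝ) (k 0 : ℝ)
      rw [abs_sub_comm] at this
      linarith
    unfold n1
    rw [h]
    set w := ‖mFourierCoeff (Fk k) j‖
    have hw : 0 ≤ w := norm_nonneg _
    have a0 := abs_nonneg (k 0 : ℝ)
    have a1 := abs_nonneg (k 1 : ℝ)
    calc (|(j 0 : ℝ)| + |(k 1 : ℝ)|) * w
        ≤ (|(k 0 : ℝ)| + |(k 0 : ℝ) - j 0| + |(k 1 : ℝ)|) * w := by gcongr
      _ = |(k 0 : ℝ)| * w + |(k 0 : ℝ) - j 0| * w + |(k 1 : ℝ)| * w := by ring
      _ ≤ |(k 0 : ℝ)| * 1 + |(k 1 : ℝ)| + |(k 1 : ℝ)| * 1 := by gcongr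
      _ ≤ 2 * (|(k 0 : ℝ)| + |(k 1 : ℝ)|) := by linarith
  · rw [coef_Fk_ne h, norm_zero, mul_zero]
    have := n1_nonneg k
    linarith

lemma coef_Fk_zero {k : Fin 2 → ℤ} (hk : k ≠ 0) : mFourierCoeff (Fk k) 0 = 0 := by
  unfold mFourierCoeff Fk
  rw [neg_zero, mFourier_zero]
  simp only [ContinuousMap.one_apply, one_smul]
  rw [integral_comp_hFun (fun y => mFourier k y), integral_mFourier hk]

/-! ### action of the cat map on the modes -/

/-- the action of the inverse cat map on modes -/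
def Bm (m : Fin 2 → ℤ) : Fin 2 → ℤ := ![m 0 - m 1, 2 * m 1 - m 0]

lemma mFourier_aInv (m : Fin 2 → ℤ) (y : T2) : mFourier m (aInv y) = mFourier (Bm m) y := by
  have hs : ∀ (n : ℤ) (x y : UnitAddCircle), (fourier n (x - y) : ℂ)
      = fourier n x * fourier (-n) y := by
    intro n x y
    rw [sub_eq_add_neg, fourier_add_arg]
    congr 1
    simp [fourier_apply]
  rw [mFourier_two, mFourier_two]
  simp only [aInv_zero, aInv_one, Bm, Matrix.cons_val_zero, Matrix.cons_val_one, hs, two_smul,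
    fourier_add_arg]
  rw [two_mul, sub_eq_add_neg, sub_eq_add_neg]
  simp only [fourier_add]
  ring

lemma coef_comp_aFun (G : T2 → ℂ) (m : Fin 2 → ℤ) :
    mFourierCoeff (fun x => G (aFun x)) m = mFourierCoeff G (Bm m) := by
  unfold mFourierCoeff
  have h := integral_comp_aFun (fun y => mFourier (-m) (aInv y) • G y)
  simp only [aInv_aFun] at h
  rw [h]
  refine integral_congr_ae (Filter.Eventually.of_forall fun y => ?_)
  have e : Bm (-m) = -Bm m := by
    funext i; fin_cases i
    · simp [Bm]; ring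
    · simp [Bm]; ring
  simp only [mFourier_aInv, e]

lemma coef_comp_aFun_iter (G : T2 → ℂ) (n : ℕ) (m : Fin 2 → ℤ) :
    mFourierCoeff (fun x => G (aFun^[n] x)) m = mFourierCoeff G (Bm^[n] m) := by
  induction n generalizing m with
  | zero => rfl
  | succ n ih =>
    have : (fun x => G (aFun^[n + 1] x)) = fun x => (fun y => G (aFun^[n] y)) (aFun x) := by
      funext x
      simp only [Function.iterate_succ_apply]
    rw [this]
    refine (coef_comp_aFun (fun y => G (aFun^[n] y)) m).trans ?_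
    rw [ih, Function.iterate_succ_apply]

open Real in
/-- the two eigenforms -/
def fa (m : Fin 2 → ℤ) : ℝ := goldenRatio * m 0 + m 1
open Real in
def fb (m : Fin 2 → ℤ) : ℝ := goldenConj * m 0 + m 1

open Real in
lemma fb_Bm (m : Fin 2 → ℤ) : fb (Bm m) = goldenRatio ^ 2 * fb m := by
  have h1 : goldenRatio = 1 - goldenConj := one_sub_goldenRatio.symm
  have h2 := goldenConj_sq
  unfold fb Bm
  simp only [Matrix.cons_val_zero, Matrix.cons_val_one]
  push_cast
  rw [h1]
  have h3 : goldenConj ^ 3 = 2 * goldenConj + 1 := by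
    linear_combination (goldenConj + 1) * h2
  linear_combination (-(m 0 : ℝ)) * h3 + (2 * (m 0 : ℝ) - m 1) * h2

open Real in
lemma fa_Bm (m : Fin 2 → ℤ) : goldenRatio ^ 2 * fa (Bm m) = fa m := by
  have h2 := goldenRatio_sq
  unfold fa Bm
  simp only [Matrix.cons_val_zero, Matrix.cons_val_one]
  push_cast
  have h3 : goldenRatio ^ 3 = 2 * goldenRatio + 1 := by
    linear_combination (goldenRatio + 1) * h2
  linear_combination (((m 0 : ℝ) - m 1)) * h3 + (2 * (m 1 : ℝ) - m 0) * h2

open Real in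
lemma fb_iter (n : ℕ) (m : Fin 2 → ℤ) : fb (Bm^[n] m) = (goldenRatio ^ 2) ^ n * fb m := by
  induction n generalizing m with
  | zero => simp
  | succ n ih => rw [Function.iterate_succ_apply, ih, fb_Bm]; ring

open Real in
lemma fa_iter (n : ℕ) (m : Fin 2 → ℤ) : (goldenRatio ^ 2) ^ n * fa (Bm^[n] m) = fa m := by
  induction n generalizing m with
  | zero => simp
  | succ n ih =>
    rw [Function.iterate_succ_apply, pow_succ', mul_assoc, ih, fa_Bm]

open Real in
lemma one_le_fa_mul_fb {m : Fin 2 → ℤ} (hm : m ≠ 0) : 1 ≤ |fa m| * |fb m| := by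
  have h1 : goldenRatio + goldenConj = 1 := goldenRatio_add_goldenConj
  have h2 : goldenRatio * goldenConj = -1 := goldenRatio_mul_goldenConj
  have e : fa m * fb m = ((m 1 ^ 2 + m 0 * m 1 - m 0 ^ 2 : ℤ) : ℝ) := by
    unfold fa fb
    push_cast
    linear_combination ((m 0 : ℝ) * m 1) * h1 + (m 0 : ℝ) ^ 2 * h2
  have hne : (m 1 ^ 2 + m 0 * m 1 - m 0 ^ 2 : ℤ) ≠ 0 := by
    intro h
    rw [h, Int.cast_zero] at e
    rcases mul_eq_zero.mp e with h3 | h3
    · unfold fa at h3
      by_cases h0 : m 0 = 0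
      · rw [h0] at h3
        simp at h3
        apply hm; funext i; fin_cases i
        · exact h0
        · exact_mod_cast h3
      · have h0' : (m 0 : ℝ) ≠ 0 := by exact_mod_cast h0
        refine goldenRatio_irrational ⟨(-(m 1 : ℚ)) / (m 0 : ℚ), ?_⟩
        push_cast
        rw [div_eq_iff h0']
        linarith
    · unfold fb at h3
      by_cases h0 : m 0 = 0
      · rw [h0] at h3
        simp at h3
        apply hm; funext i; fin_cases i
        · exact h0
        · exact_mod_cast h3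
      · have h0' : (m 0 : ℝ) ≠ 0 := by exact_mod_cast h0
        refine goldenConj_irrational ⟨(-(m 1 : ℚ)) / (m 0 : ℚ), ?_⟩
        push_cast
        rw [div_eq_iff h0']
        linarith
  rw [← abs_mul, e, ← Int.cast_abs]
  exact_mod_cast Int.one_le_abs hne

open Real in
lemma abs_fb_le (m : Fin 2 → ℤ) : |fb m| ≤ n1 m := by
  have h : |goldenConj| ≤ 1 := by
    rw [abs_le]
    constructor
    · have := neg_one_lt_goldenConj; linarith
    · have := goldenConj_neg; linarith
  unfold fb n1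
  calc |goldenConj * m 0 + m 1| ≤ |goldenConj * m 0| + |(m 1 : ℝ)| := abs_add_le _ _
    _ = |goldenConj| * |(m 0 : ℝ)| + |(m 1 : ℝ)| := by rw [abs_mul]
    _ ≤ 1 * |(m 0 : ℝ)| + |(m 1 : ℝ)| := by gcongr
    _ = _ := by rw [one_mul]

open Real in
lemma abs_fa_le (m : Fin 2 → ℤ) : |fa m| ≤ 2 * n1 m := by
  have h : |goldenRatio| ≤ 2 := by
    rw [abs_of_pos goldenRatio_pos]; exact goldenRatio_lt_two.le
  unfold fa n1
  calc |goldenRatio * m 0 + m 1| ≤ |goldenRatio * m 0| + |(m 1 : ℝ)| := abs_add_le _ _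
    _ = |goldenRatio| * |(m 0 : ℝ)| + |(m 1 : ℝ)| := by rw [abs_mul]
    _ ≤ 2 * |(m 0 : ℝ)| + 2 * |(m 1 : ℝ)| := by
        have := abs_nonneg (m 1 : ℝ)
        gcongr
        linarith
    _ = _ := by ring

open Real in
lemma n1_mul_n1_ge {m : Fin 2 → ℤ} (hm : m ≠ 0) (n : ℕ) :
    (goldenRatio ^ 2) ^ n ≤ 2 * (n1 m * n1 (Bm^[n] m)) := by
  have h1 := abs_fa_le m
  have h2 := abs_fb_le (Bm^[n] m)
  have h3 := one_le_fa_mul_fb hm
  have hpos : 0 < (goldenRatio ^ 2) ^ n := by have := goldenRatio_pos; positivity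
  rw [fb_iter, abs_mul, abs_of_pos hpos] at h2
  calc (goldenRatio ^ 2) ^ n ≤ (goldenRatio ^ 2) ^ n * (|fa m| * |fb m|) := by
        nlinarith
    _ = |fa m| * ((goldenRatio ^ 2) ^ n * |fb m|) := by ring
    _ ≤ (2 * n1 m) * n1 (Bm^[n] m) := by
        have := n1_nonneg m
        gcongr
    _ = _ := by ring

open Real in
lemma Bm_unique {n : ℕ} (hn : 1 ≤ n) {m m' : Fin 2 → ℤ} (h1 : m 1 = m' 1)
    (h2 : (Bm^[n] m) 1 = (Bm^[n] m') 1) : m = m' := by
  have a1 := fa_iter n m
  have a2 := fa_iter n m'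
  have b1 := fb_iter n m
  have b2 := fb_iter n m'
  set M := Bm^[n] m
  set M' := Bm^[n] m'
  set L := (goldenRatio ^ 2) ^ n with hL
  have hL1 : 1 < L := by
    have h3 : (1 : ℝ) < goldenRatio ^ 2 := by
      rw [goldenRatio_sq]; have := goldenRatio_pos; linarith
    exact one_lt_pow₀ h3 (by omega)
  unfold fa at a1 a2
  unfold fb at b1 b2
  have h1' : (m 1 : ℝ) = m' 1 := by exact_mod_cast h1
  have h2' : (M 1 : ℝ) = M' 1 := by exact_mod_cast h2
  set d : ℝ := (m 0 : ℝ) - m' 0 with hd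
  set e : ℝ := (M 0 : ℝ) - M' 0 with he
  have ea : goldenRatio * (L * e - d) = 0 := by
    rw [hd, he]; rw [h1', h2'] at a1; linear_combination a1 - a2
  have eb : goldenConj * (e - L * d) = 0 := by
    rw [hd, he]; rw [h1', h2'] at b1; linear_combination b1 - b2
  have ea' := (mul_eq_zero.mp ea).resolve_left goldenRatio_ne_zero
  have eb' := (mul_eq_zero.mp eb).resolve_left goldenConj_ne_zero
  have hd0 : d * (L ^ 2 - 1) = 0 := by linear_combination -L * eb' + ea'
  have hL2 : L ^ 2 - 1 ≠ 0 := by nlinarith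
  have hd1 : d = 0 := (mul_eq_zero.mp hd0).resolve_right hL2
  funext i; fin_cases i
  · have : (m 0 : ℝ) = m' 0 := by rw [hd] at hd1; linarith
    exact_mod_cast this
  · exact h1

/-! ### correlations of sheared characters -/

lemma norm_le_of_unique {ι : Type*} {f : ι → ℂ} {a : ℂ} (h : HasSum f a) (K : ℝ) (hK0 : 0 ≤ K)
    (hK : ∀ i, ‖f i‖ ≤ K) (hu : ∀ i j, f i ≠ 0 → f j ≠ 0 → i = j) : ‖a‖ ≤ K := by
  by_cases hex : ∃ i, f i ≠ 0
  · obtain ⟨i, hi⟩ := hex
    have h2 := hasSum_single (f := f) i (fun j hj => by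
      by_contra hc
      exact hj (hu j i hc hi))
    rw [h.unique h2]
    exact hK i
  · push Not at hex
    have h2 : HasSum f 0 := by
      have : f = fun _ => 0 := funext hex
      rw [this]; exact hasSum_zero
    rw [h.unique h2, norm_zero]; exact hK0

lemma memLp_of_cont {f : T2 → ℂ} (hf : Continuous f) : MemLp f 2 (volume : Measure T2) := by
  have : MemLp f ⊤ (volume : Measure T2) := by
    refine memLp_top_of_bound hf.aestronglyMeasurable (‖(⟨f, hf⟩ : C(T2, ℂ))‖)
      (Filter.Eventually.of_forall fun x => ?_)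
    exact (⟨f, hf⟩ : C(T2, ℂ)).norm_coe_le_norm x
  exact this.mono_exponent le_top

lemma continuous_aFun_iter (n : ℕ) : Continuous (aFun^[n]) := continuous_aFun.iterate n

open Real in
theorem corr_le (n : ℕ) {k l : Fin 2 → ℤ} (hk : k ≠ 0) (hl : l ≠ 0) :
    ‖∫ y : T2, conj (Fk l y) * Fk k (aFun^[n] y)‖ ≤ 8 * (n1 k * n1 l) / (goldenRatio ^ 2) ^ n := by
  have hLpos : 0 < (goldenRatio ^ 2) ^ n := by have := goldenRatio_pos; positivity
  have hk1 := one_le_n1 hk
  have hl1 := one_le_n1 hl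
  rcases Nat.eq_zero_or_pos n with hn | hn
  · subst hn
    rw [pow_zero, div_one]
    refine (norm_integral_le_of_norm_le_const (C := 1)
      (Filter.Eventually.of_forall fun y => ?_)).trans ?_
    · rw [norm_mul, RCLike.norm_conj, norm_Fk, norm_Fk, one_mul]
    · simp only [probReal_univ, mul_one]
      nlinarith
  · have hc1 : Continuous (Fk l) := continuous_Fk l
    have hc2 : Continuous (fun y => Fk k (aFun^[n] y)) :=
      (continuous_Fk k).comp (continuous_aFun_iter n)
    have hs := hasSum_prod_mFourierCoeff ((memLp_of_cont hc1).toLp _)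
      ((memLp_of_cont hc2).toLp _)
    have e1 : ∫ t, conj (((memLp_of_cont hc1).toLp (Fk l)) t) *
        ((memLp_of_cont hc2).toLp (fun y => Fk k (aFun^[n] y))) t
        = ∫ y : T2, conj (Fk l y) * Fk k (aFun^[n] y) := by
      refine integral_congr_ae ?_
      filter_upwards [(memLp_of_cont hc1).coeFn_toLp, (memLp_of_cont hc2).coeFn_toLp] with y h1 h2
      rw [h1, h2]
    rw [e1] at hs
    simp only [mFourierCoeff_congr (memLp_of_cont hc1).coeFn_toLp,
      mFourierCoeff_congr (memLp_of_cont hc2).coeFn_toLp, coef_comp_aFun_iter] at hs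
    refine norm_le_of_unique hs _ (by positivity) (fun m => ?_) (fun m m' hm hm' => ?_)
    · by_cases hm : m = 0
      · rw [hm, coef_Fk_zero hl]; simp; positivity
      · rw [norm_mul, RCLike.norm_conj, le_div_iff₀ hLpos]
        have h1 := n1_mul_coef_le l m
        have h2 := n1_mul_coef_le k (Bm^[n] m)
        have h3 := n1_mul_n1_ge hm n
        have p1 := norm_nonneg (mFourierCoeff (Fk l) m)
        have p2 := norm_nonneg (mFourierCoeff (Fk k) (Bm^[n] m))
        have p3 := n1_nonneg m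
        have p4 := n1_nonneg (Bm^[n] m)
        calc ‖mFourierCoeff (Fk l) m‖ * ‖mFourierCoeff (Fk k) (Bm^[n] m)‖ *
              (goldenRatio ^ 2) ^ n
            ≤ ‖mFourierCoeff (Fk l) m‖ * ‖mFourierCoeff (Fk k) (Bm^[n] m)‖ *
              (2 * (n1 m * n1 (Bm^[n] m))) := by gcongr
          _ = 2 * ((n1 m * ‖mFourierCoeff (Fk l) m‖) *
              (n1 (Bm^[n] m) * ‖mFourierCoeff (Fk k) (Bm^[n] m)‖)) := by ring
          _ ≤ 2 * ((2 * n1 l) * (2 * n1 k)) := by gcongr
          _ = 8 * (n1 k * n1 l) := by ring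
    · have q1 : m 1 = l 1 := by
        by_contra hne; exact hm (by rw [coef_Fk_ne hne]; simp)
      have q2 : m' 1 = l 1 := by
        by_contra hne; exact hm' (by rw [coef_Fk_ne hne]; simp)
      have q3 : (Bm^[n] m) 1 = k 1 := by
        by_contra hne; exact hm (by rw [coef_Fk_ne (k := k) hne]; simp)
      have q4 : (Bm^[n] m') 1 = k 1 := by
        by_contra hne; exact hm' (by rw [coef_Fk_ne (k := k) hne]; simp)
      exact Bm_unique hn (q1.trans q2.symm) (q3.trans q4.symm)

end

end Q187.Pulse
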