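import Mathlib

/-!
# A trace bound for contractions that nearly preserve a finite box of modes
-/

open scoped ComplexConjugate

namespace Q187.Pulse

variable {ι E : Type*} [NormedAddCommGroup E] [InnerProductSpace ℂ E]

/-- Diagonal contractions in a Hilbert basis. -/
lemma exists_diag (b : HilbertBasis ι ℂ E) (d : ι → ℂ) (hd : ∀ k, ‖d k‖ ≤ 1) :
    ∃ D : E →L[ℂ] E, (∀ f, ‖D f‖ ≤ ‖f‖) ∧ ∀ f k, b.repr (D f) k = d k * b.repr f k := by
  have mem : ∀ x : lp (fun _ : ι => ℂ) 2, Memℓp (fun k => d k * x k) 2 := by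
    intro x
    refine memℓp_gen ?_
    have hx := (lp.memℓp x).summable (by norm_num)
    refine Summable.of_nonneg_of_le (fun k => by positivity) (fun k => ?_) hx
    refine Real.rpow_le_rpow (norm_nonneg _) ?_ (by norm_num)
    rw [norm_mul]
    calc ‖d k‖ * ‖x k‖ ≤ 1 * ‖x k‖ := by gcongr; exact hd k
      _ = ‖x k‖ := one_mul _
  obtain ⟨mk, hmk⟩ : ∃ mk : lp (fun _ : ι => ℂ) 2 → lp (fun _ : ι => ℂ) 2,
      ∀ x k, mk x k = d k * x k := ⟨fun x => ⟨_, mem x⟩, fun _ _ => rfl⟩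
  have hle : ∀ x : lp (fun _ : ι => ℂ) 2, ‖mk x‖ ≤ ‖x‖ := by
    intro x
    refine lp.norm_le_of_tsum_le (by norm_num) (norm_nonneg _) ?_
    rw [lp.norm_rpow_eq_tsum (by norm_num)]
    refine Summable.tsum_le_tsum (fun k => ?_) ((lp.memℓp (mk x)).summable (by norm_num))
      ((lp.memℓp x).summable (by norm_num))
    refine Real.rpow_le_rpow (norm_nonneg _) ?_ (by norm_num)
    rw [hmk, norm_mul]
    calc ‖d k‖ * ‖x k‖ ≤ 1 * ‖x k‖ := by gcongr; exact hd k
      _ = ‖x k‖ := one_mul _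
  have hadd : ∀ x y, mk (x + y) = mk x + mk y := by
    intro x y
    ext k
    rw [hmk, lp.coeFn_add, Pi.add_apply, lp.coeFn_add, Pi.add_apply, hmk, hmk, mul_add]
  have hsmul : ∀ (c : ℂ) x, mk (c • x) = c • mk x := by
    intro c x
    ext k
    rw [hmk, lp.coeFn_smul, Pi.smul_apply, lp.coeFn_smul, Pi.smul_apply, hmk, smul_eq_mul,
      smul_eq_mul]
    ring
  let L : E →ₗ[ℂ] E :=
    { toFun := fun f => b.repr.symm (mk (b.repr f))
      map_add' := fun f g => by rw [map_add, hadd, map_add]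
      map_smul' := fun c f => by rw [RingHom.id_apply, map_smul, hsmul, map_smul] }
  refine ⟨L.mkContinuous 1 (fun f => ?_), fun f => ?_, fun f k => ?_⟩
  · show ‖b.repr.symm (mk (b.repr f))‖ ≤ 1 * ‖f‖
    rw [LinearIsometryEquiv.norm_map, one_mul, ← b.repr.norm_map f]
    exact hle _
  · show ‖b.repr.symm (mk (b.repr f))‖ ≤ ‖f‖
    rw [LinearIsometryEquiv.norm_map, ← b.repr.norm_map f]
    exact hle _
  · show b.repr (b.repr.symm (mk (b.repr f))) k = _
    rw [LinearIsometryEquiv.apply_symm_apply, hmk]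

/-- Approximate eigenvectors of a contraction. -/
lemma eig_bound (T : E →L[ℂ] E) (hT : ∀ f, ‖T f‖ ≤ ‖f‖) (v : E) (hv : v ≠ 0) (μ : ℂ)
    (δ ρ : ℝ) (horth : inner ℂ v (T v - μ • v) = 0) (hr : ‖T v - μ • v‖ ≤ δ * ‖v‖)
    (n : ℕ) (hn : ‖(T ^ n) v‖ ≤ ρ * ‖v‖) : ‖μ‖ ^ n ≤ ρ + n * δ := by
  have hv0 : 0 < ‖v‖ := norm_pos_iff.mpr hv
  have hμ : ‖μ‖ ≤ 1 := by
    have h1 : inner ℂ v (T v) = μ * (‖v‖ : ℂ) ^ 2 := by
      have := horth
      rw [inner_sub_right, inner_smul_right, inner_self_eq_norm_sq_to_K, sub_eq_zero] at this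
      simpa using this
    have h2 : ‖μ‖ * ‖v‖ ^ 2 ≤ 1 * ‖v‖ ^ 2 := by
      calc ‖μ‖ * ‖v‖ ^ 2 = ‖inner ℂ v (T v)‖ := by rw [h1]; simp
        _ ≤ ‖v‖ * ‖T v‖ := norm_inner_le_norm _ _
        _ ≤ ‖v‖ * ‖v‖ := by gcongr; exact hT v
        _ = 1 * ‖v‖ ^ 2 := by ring
    exact le_of_mul_le_mul_right h2 (by positivity)
  have hδ : 0 ≤ δ * ‖v‖ := (norm_nonneg _).trans hr
  have key : ∀ m : ℕ, ‖(T ^ m) v - μ ^ m • v‖ ≤ m * (δ * ‖v‖) := by
    intro m
    induction m with
    | zero => simp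
    | succ m ih =>
      have e : (T ^ (m + 1)) v - μ ^ (m + 1) • v
          = T ((T ^ m) v - μ ^ m • v) + μ ^ m • (T v - μ • v) := by
        rw [pow_succ', mul_apply_eq_comp, map_sub, map_smul, smul_sub, smul_smul,
          pow_succ]
        abel
      rw [e]
      calc _ ≤ ‖T ((T ^ m) v - μ ^ m • v)‖ + ‖μ ^ m • (T v - μ • v)‖ := norm_add_le _ _
        _ ≤ m * (δ * ‖v‖) + 1 * (δ * ‖v‖) := by
          gcongr
          · exact (hT _).trans ih
          · rw [norm_smul, norm_pow]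
            exact mul_le_mul (pow_le_one₀ (norm_nonneg _) hμ) hr (norm_nonneg _) zero_le_one
        _ = ((m + 1 : ℕ) : ℝ) * (δ * ‖v‖) := by push_cast; ring
  have h3 : ‖μ‖ ^ n * ‖v‖ ≤ (ρ + n * δ) * ‖v‖ := by
    calc ‖μ‖ ^ n * ‖v‖ = ‖(T ^ n) v - ((T ^ n) v - μ ^ n • v)‖ := by
          rw [sub_sub_cancel, norm_smul, norm_pow]
      _ ≤ ‖(T ^ n) v‖ + ‖(T ^ n) v - μ ^ n • v‖ := norm_sub_le _ _
      _ ≤ ρ * ‖v‖ + n * (δ * ‖v‖) := add_le_add hn (key n)
      _ = (ρ + n * δ) * ‖v‖ := by ring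
  exact le_of_mul_le_mul_right h3 hv0

lemma norm_multiset_sum_le (s : Multiset ℂ) (R : ℝ) (h : ∀ x ∈ s, ‖x‖ ≤ R) :
    ‖s.sum‖ ≤ Multiset.card s * R := by
  induction s using Multiset.induction_on with
  | empty => simp
  | cons a s ih =>
    rw [Multiset.sum_cons, Multiset.card_cons]
    have h1 := ih (fun x hx => h x (Multiset.mem_cons_of_mem hx))
    have h2 := h a (Multiset.mem_cons_self a s)
    calc ‖a + s.sum‖ ≤ ‖a‖ + ‖s.sum‖ := norm_add_le _ _
      _ ≤ R + Multiset.card s * R := add_le_add h2 h1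
      _ = ((Multiset.card s + 1 : ℕ) : ℝ) * R := by push_cast; ring

/-- The trace of a finite block of `T` is small if the block is nearly invariant and `T ^ n` is
small on it. -/
theorem trace_bound (b : HilbertBasis ι ℂ E) (T : E →L[ℂ] E) (hT : ∀ f, ‖T f‖ ≤ ‖f‖)
    (S : Finset ι) (n : ℕ) (hn : n ≠ 0) (δ ρ R : ℝ) (hR : 0 ≤ R) (hRn : ρ + n * δ ≤ R ^ n)
    (h1 : ∀ v r : E, (∀ k ∉ S, b.repr v k = 0) → (∀ k ∈ S, b.repr r k = 0) →
      (∀ k ∉ S, b.repr r k = b.repr (T v) k) → ‖r‖ ≤ δ * ‖v‖)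
    (h2 : ∀ v : E, (∀ k ∉ S, b.repr v k = 0) → ‖(T ^ n) v‖ ≤ ρ * ‖v‖) :
    ‖∑ k ∈ S, inner ℂ (b k) (T (b k))‖ ≤ S.card * R := by
  classical
  let M : Matrix S S ℂ := fun k l => inner ℂ (b k) (T (b l))
  have htr : ∑ k ∈ S, inner ℂ (b k) (T (b k)) = M.trace := by
    rw [Matrix.trace, ← Finset.sum_coe_sort]
    rfl
  rw [htr, Matrix.trace_eq_sum_roots_charpoly]
  have hroot : ∀ μ ∈ M.charpoly.roots, ‖μ‖ ≤ R := by
    intro μ hμ
    have hμ' : M.charpoly.eval μ = 0 := (Polynomial.mem_roots'.mp hμ).2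
    rw [Matrix.eval_charpoly] at hμ'
    obtain ⟨w, hw0, hw⟩ := Matrix.exists_mulVec_eq_zero_iff.mpr hμ'
    have hw' : M.mulVec w = μ • w := by
      rw [Matrix.sub_mulVec, sub_eq_zero] at hw
      rw [← hw]
      funext k
      simp [Matrix.scalar_apply]
    let v : E := ∑ l : S, w l • b l
    have hb : ∀ (l k : ι), b.repr (b l) k = if l = k then 1 else 0 := by
      intro l k
      rw [b.repr_self, lp.single_apply]
      by_cases h : l = k
      · subst h; simp
      · have h' : ¬ k = l := fun h'' => h h''.symm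
        simp [h, h']
    have hvrepr : ∀ k, b.repr v k = ∑ l : S, w l * (if (l : ι) = k then 1 else 0) := by
      intro k
      rw [b.repr_apply_apply, inner_sum]
      refine Finset.sum_congr rfl fun l _ => ?_
      rw [inner_smul_right, ← b.repr_apply_apply, hb]
    have hvin : ∀ k : S, b.repr v k = w k := by
      intro k
      rw [hvrepr, Finset.sum_eq_single k]
      · simp
      · intro l _ hl
        have : ¬ (l : ι) = k := fun h => hl (Subtype.ext h)
        simp [this]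
      · intro h; exact absurd (Finset.mem_univ k) h
    have hvout : ∀ k ∉ S, b.repr v k = 0 := by
      intro k hk
      rw [hvrepr]
      refine Finset.sum_eq_zero fun l _ => ?_
      have : ¬ (l : ι) = k := fun h => hk (h ▸ l.2)
      simp [this]
    have hv0 : v ≠ 0 := by
      intro h
      apply hw0
      funext k
      rw [← hvin k, h]
      simp
    have hTv : ∀ k : S, b.repr (T v) k = μ * w k := by
      intro k
      have e1 : b.repr (T v) k = M.mulVec w k := by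
        rw [b.repr_apply_apply]
        show inner ℂ (b k) (T (∑ l : S, w l • b l)) = _
        rw [map_sum, inner_sum]
        simp only [Matrix.mulVec, dotProduct, map_smul, inner_smul_right]
        refine Finset.sum_congr rfl fun l _ => ?_
        show _ = inner ℂ (b k) (T (b l)) * w l
        ring
      rw [e1, hw']
      rfl
    have hrin : ∀ k ∈ S, b.repr (T v - μ • v) k = 0 := by
      intro k hk
      have e1 := hTv ⟨k, hk⟩
      have e2 := hvin ⟨k, hk⟩
      simp only at e1 e2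
      rw [map_sub, map_smul, lp.coeFn_sub, lp.coeFn_smul, Pi.sub_apply, Pi.smul_apply, e1, e2,
        smul_eq_mul, sub_self]
    have hrout : ∀ k ∉ S, b.repr (T v - μ • v) k = b.repr (T v) k := by
      intro k hk
      rw [map_sub, map_smul, lp.coeFn_sub, lp.coeFn_smul, Pi.sub_apply, Pi.smul_apply,
        hvout k hk, smul_zero, sub_zero]
    have horth : inner ℂ v (T v - μ • v) = 0 := by
      show inner ℂ (∑ l : S, w l • b l) (T v - μ • v) = 0
      rw [sum_inner]
      refine Finset.sum_eq_zero fun l _ => ?_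
      rw [inner_smul_left, ← b.repr_apply_apply, hrin l l.2, mul_zero]
    have := eig_bound T hT v hv0 μ δ ρ horth (h1 v _ hvout hrin hrout) n (h2 v hvout)
    exact le_of_pow_le_pow_left₀ hn hR (this.trans hRn)
  refine (norm_multiset_sum_le _ R hroot).trans ?_
  gcongr
  calc Multiset.card M.charpoly.roots ≤ M.charpoly.natDegree := Polynomial.card_roots' _
    _ = S.card := by rw [Matrix.charpoly_natDegree_eq_dim]; simp

end Q187.Pulse
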