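import Pool.Agent.Q187.Pulse.Basic
import Pool.Agent.Q187.Pulse.Trace

/-!
# Uniform growth of the decay exponent forces all traces to vanish
-/

open MeasureTheory UnitAddTorus
open scoped ContDiff ComplexConjugate

attribute [local instance] instMeasureSpaceUnitAddCircle
attribute [local instance] instIsAddHaarMeasureUnitAddCircleVolume
attribute [local instance] instIsProbabilityMeasureUnitAddCircleVolume

namespace Q187.Pulse

noncomputable section

/-- `L²(T²)`. -/
abbrev L2T := Lp ℂ 2 (volume : Measure T2)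

/-- The Fourier basis. -/
abbrev bas : HilbertBasis (Fin 2 → ℤ) ℂ L2T := mFourierBasis (d := Fin 2)

/-- the growth statement for given constants -/
def Growth (φ : T2 → T2) (C γ ν₀ : ℝ) : Prop :=
  ∀ ν : ℝ, 0 < ν → ν ≤ ν₀ → ∀ n : ℕ, 1 ≤ n → ∀ θ : ℕ → T2 → ℂ, IsPulsed φ ν θ →
    (∃ θ₀ : T2 → ℝ, θ 0 = fun x => (θ₀ x : ℂ)) → ∫ x, θ 0 x = 0 →
    l2norm (θ n) ≤ Real.exp (-(ν * γ ^ n / C)) * l2norm (θ 0)

lemma mFourierCoeff_congr {f g : T2 → ℂ} (h : f =ᵐ[volume] g) (k : Fin 2 → ℤ) :
    mFourierCoeff f k = mFourierCoeff g k := by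
  unfold mFourierCoeff
  refine integral_congr_ae ?_
  filter_upwards [h] with x hx
  rw [hx]

lemma l2norm_congr {f g : T2 → ℂ} (h : f =ᵐ[volume] g) : l2norm f = l2norm g := by
  unfold l2norm
  congr 1
  refine integral_congr_ae ?_
  filter_upwards [h] with x hx
  rw [hx]

lemma norm_eq_l2norm (f : L2T) : ‖f‖ = l2norm f := by
  have h1 : ‖f‖ ^ 2 = ∫ x, ‖f x‖ ^ 2 := by
    have h := (hasSum_sq_mFourierCoeff f).tsum_eq
    rw [← h, ← bas.repr.norm_map f]
    have h2 := lp.norm_rpow_eq_tsum (p := 2) (by norm_num) (bas.repr f)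
    simp only [ENNReal.toReal_ofNat, Real.rpow_two] at h2
    rw [h2]
    refine tsum_congr fun k => ?_
    rw [mFourierBasis_repr]
  unfold l2norm
  rw [← h1, Real.sqrt_sq (norm_nonneg _)]

lemma repr_zero_eq (f : L2T) : bas.repr f 0 = ∫ x, f x := by
  rw [mFourierBasis_repr]
  unfold mFourierCoeff
  refine integral_congr_ae (Filter.Eventually.of_forall fun x => ?_)
  simp [mFourier_zero]

/-- Koopman operator. -/
def koop (φ : T2 → T2) (hφ : MeasurePreserving φ (volume : Measure T2) (volume : Measure T2)) :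
    L2T →L[ℂ] L2T :=
  (Lp.compMeasurePreservingₗᵢ ℂ φ hφ).toContinuousLinearMap

lemma norm_koop (φ : T2 → T2) (hφ : MeasurePreserving φ (volume : Measure T2) volume) (f : L2T) :
    ‖koop φ hφ f‖ = ‖f‖ := (Lp.compMeasurePreservingₗᵢ ℂ φ hφ).norm_map f

lemma coeFn_koop (φ : T2 → T2) (hφ : MeasurePreserving φ (volume : Measure T2) volume)
    (f : L2T) : koop φ hφ f =ᵐ[volume] fun x => f (φ x) :=
  Lp.coeFn_compMeasurePreserving f hφ

lemma ae_comp {φ : T2 → T2} (hφ : MeasurePreserving φ (volume : Measure T2) volume)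
    {f g : T2 → ℂ} (h : f =ᵐ[volume] g) :
    (fun x => f (φ x)) =ᵐ[volume] fun x => g (φ x) :=
  hφ.quasiMeasurePreserving.ae_eq_comp h

/-- The diagonal entries of the Koopman operator. -/
def uk (φ : T2 → T2) (k : Fin 2 → ℤ) : ℂ := ∫ x, conj (mFourier k x) * mFourier k (φ x)

lemma inner_koop (φ : T2 → T2) (hφ : MeasurePreserving φ (volume : Measure T2) volume)
    (k : Fin 2 → ℤ) : inner ℂ (bas k) (koop φ hφ (bas k)) = uk φ k := by
  rw [L2.inner_def]
  unfold uk
  refine integral_congr_ae ?_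
  have h1 : (bas k : L2T) =ᵐ[volume] mFourier k := by
    rw [show bas k = mFourierLp 2 k from congrFun coe_mFourierBasis k]
    exact coeFn_mFourierLp 2 k
  filter_upwards [h1, coeFn_koop φ hφ (bas k), ae_comp hφ h1] with x h2 h3 h4
  rw [h3, h4, h2, RCLike.inner_apply]
  ring

lemma norm_uk_le (φ : T2 → T2) (hφ : MeasurePreserving φ (volume : Measure T2) volume)
    (k : Fin 2 → ℤ) : ‖uk φ k‖ ≤ 1 := by
  rw [← inner_koop φ hφ k]
  refine (norm_inner_le_norm _ _).trans ?_
  rw [norm_koop]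
  have : ‖bas k‖ = 1 := bas.orthonormal.norm_eq_one k
  rw [this]; norm_num

/-- The growth bound for one step number gives an operator bound on `L²₀`. -/
lemma growth_operator {φ : T2 → T2} (hφ : MeasurePreserving φ (volume : Measure T2) volume)
    {C γ ν₀ : ℝ} (hG : Growth φ C γ ν₀) {ν : ℝ} (hν : 0 < ν) (hν' : ν ≤ ν₀)
    (D : L2T →L[ℂ] L2T)
    (hD : ∀ f k, bas.repr (D f) k = (Real.exp (-(ν * lam k)) : ℂ) * bas.repr f k)
    (n : ℕ) (hn : 1 ≤ n) (v : L2T) (hv : bas.repr v 0 = 0) :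
    ‖((D * koop φ hφ) ^ n) v‖ ≤ 2 * Real.exp (-(ν * γ ^ n / C)) * ‖v‖ := by
  set T : L2T →L[ℂ] L2T := D * koop φ hφ with hT
  -- real data
  have real_case : ∀ (g : T2 → ℝ) (hg : MemLp g 2 (volume : Measure T2)), ∫ x, g x = 0 →
      ‖(T ^ n) ((hg.ofReal (K := ℂ)).toLp _)‖ ≤
        Real.exp (-(ν * γ ^ n / C)) * ‖(hg.ofReal (K := ℂ)).toLp (fun x => ((g x : ℝ) : ℂ))‖ := by
    intro g hg hg0
    set a : L2T := (hg.ofReal (K := ℂ)).toLp (fun x => ((g x : ℝ) : ℂ)) with ha
    let θ : ℕ → T2 → ℂ := fun m => if m = 0 then (fun x => (g x : ℂ)) else ⇑((T ^ m) a)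
    have hae : ∀ m, θ m =ᵐ[volume] ⇑((T ^ m) a) := by
      intro m
      by_cases hm : m = 0
      · subst hm
        simp only [θ, if_true, pow_zero]
        exact ((hg.ofReal (K := ℂ)).coeFn_toLp).symm
      · simp only [θ, hm, if_false]
        rfl
    have hp : IsPulsed φ ν θ := by
      refine ⟨fun m => ?_, fun m k => ?_⟩
      · exact (memLp_congr_ae (hae m)).mpr (Lp.memLp _)
      · rw [mFourierCoeff_congr (hae (m + 1)), mFourierCoeff_congr (ae_comp hφ (hae m)),
          ← mFourierCoeff_congr (coeFn_koop φ hφ ((T ^ m) a)), ← mFourierBasis_repr,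
          ← mFourierBasis_repr, pow_succ', mul_apply_eq_comp]
        show bas.repr (D (koop φ hφ ((T ^ m) a))) k = _
        rw [hD]
    have h1 := hG ν hν hν' n hn θ hp ⟨g, rfl⟩ (by
      have h := integral_ofReal (𝕜 := ℂ) (f := g) (μ := (volume : Measure T2))
      rw [hg0] at h
      show ∫ x, ((g x : ℝ) : ℂ) = 0
      simpa using h)
    rw [l2norm_congr (hae n), l2norm_congr (hae 0), ← norm_eq_l2norm, ← norm_eq_l2norm] at h1
    simpa using h1
  have hvm := Lp.memLp v
  have hre : MemLp (fun x => (v x).re) 2 (volume : Measure T2) := hvm.re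
  have him : MemLp (fun x => (v x).im) 2 (volume : Measure T2) := hvm.im
  have hvint : Integrable v (volume : Measure T2) := hvm.integrable (by norm_num)
  have hv0 : ∫ x, v x = 0 := by rw [← repr_zero_eq, hv]
  have hre0 : ∫ x, (v x).re = 0 := by
    have := integral_re (𝕜 := ℂ) hvint
    rw [hv0] at this
    simpa using this
  have him0 : ∫ x, (v x).im = 0 := by
    have := integral_im (𝕜 := ℂ) hvint
    rw [hv0] at this
    simpa using this
  set a : L2T := (hre.ofReal (K := ℂ)).toLp _ with ha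
  set b : L2T := (him.ofReal (K := ℂ)).toLp _ with hb
  have hav : ‖a‖ ≤ ‖v‖ := by
    refine Lp.norm_le_norm_of_ae_le ?_
    filter_upwards [(hre.ofReal (K := ℂ)).coeFn_toLp] with x hx
    rw [ha, hx]
    simpa using Complex.abs_re_le_norm (v x)
  have hbv : ‖b‖ ≤ ‖v‖ := by
    refine Lp.norm_le_norm_of_ae_le ?_
    filter_upwards [(him.ofReal (K := ℂ)).coeFn_toLp] with x hx
    rw [hb, hx]
    simpa using Complex.abs_im_le_norm (v x)
  have hsum : v = a + Complex.I • b := by
    refine Lp.ext ?_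
    filter_upwards [Lp.coeFn_add a (Complex.I • b), Lp.coeFn_smul Complex.I b,
      (hre.ofReal (K := ℂ)).coeFn_toLp, (him.ofReal (K := ℂ)).coeFn_toLp] with x h1 h2 h3 h4
    rw [h1, Pi.add_apply, h2, Pi.smul_apply, ha, hb, h3, h4, smul_eq_mul, mul_comm]
    simp [Complex.re_add_im]
  have e1 := real_case _ hre hre0
  have e2 := real_case _ him him0
  set ε := Real.exp (-(ν * γ ^ n / C)) with hε
  have hε0 : 0 ≤ ε := (Real.exp_pos _).le
  calc ‖(T ^ n) v‖ = ‖(T ^ n) a + Complex.I • (T ^ n) b‖ := by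
        conv_lhs => rw [hsum]
        rw [map_add, map_smul]
    _ ≤ ‖(T ^ n) a‖ + ‖Complex.I • (T ^ n) b‖ := norm_add_le _ _
    _ = ‖(T ^ n) a‖ + ‖(T ^ n) b‖ := by rw [norm_smul, Complex.norm_I, one_mul]
    _ ≤ ε * ‖a‖ + ε * ‖b‖ := add_le_add e1 e2
    _ ≤ ε * ‖v‖ + ε * ‖v‖ := by gcongr
    _ = 2 * ε * ‖v‖ := by ring

/-- `|k|²` as a natural number. -/
def nsq (k : Fin 2 → ℤ) : ℕ := (k 0).natAbs ^ 2 + (k 1).natAbs ^ 2

lemma lam_eq (k : Fin 2 → ℤ) : lam k = 4 * Real.pi ^ 2 * (nsq k : ℝ) := by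
  unfold lam nsq
  push_cast
  simp [Nat.cast_natAbs, sq_abs]

lemma exp_lam (ν : ℝ) (k : Fin 2 → ℤ) :
    Real.exp (-(ν * lam k)) = Real.exp (-(4 * Real.pi ^ 2 * ν)) ^ nsq k := by
  rw [lam_eq, ← Real.exp_nat_mul]
  congr 1; ring

lemma summable_nsq (r : ℝ) (h0 : 0 ≤ r) (h1 : r < 1) :
    Summable fun k : Fin 2 → ℤ => r ^ nsq k := by
  have hZ : Summable fun j : ℤ => r ^ (j.natAbs ^ 2) := by
    rw [summable_int_iff_summable_nat_and_neg]
    have hg : Summable fun n : ℕ => r ^ n := summable_geometric_of_lt_one h0 h1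
    have hle : ∀ n : ℕ, r ^ (n ^ 2) ≤ r ^ n := fun n =>
      pow_le_pow_of_le_one h0 h1.le (by nlinarith [Nat.zero_le n, sq_nonneg n, Nat.le_mul_self n])
    constructor
    · refine Summable.of_nonneg_of_le (fun n => by positivity) (fun n => ?_) hg
      simpa using hle n
    · refine Summable.of_nonneg_of_le (fun n => by positivity) (fun n => ?_) hg
      simpa using hle n
  have := hZ.mul_of_nonneg hZ (fun j => by positivity) (fun j => by positivity)
  rw [← (finTwoArrowEquiv ℤ).summable_iff] at this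
  refine this.congr fun k => ?_
  simp [finTwoArrowEquiv, nsq, pow_add]

/-- The box of modes. -/
def box (N : ℕ) : Finset (Fin 2 → ℤ) := Fintype.piFinset fun _ => Finset.Icc (-(N : ℤ)) N

lemma mem_box {N : ℕ} {k : Fin 2 → ℤ} : k ∈ box N ↔ ∀ i, -(N : ℤ) ≤ k i ∧ k i ≤ N := by
  simp [box, Fintype.mem_piFinset]

lemma card_box (N : ℕ) : (box N).card = (2 * N + 1) ^ 2 := by
  rw [box, Fintype.card_piFinset]
  simp only [Int.card_Icc, Finset.prod_const, Finset.card_univ, Fintype.card_fin]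
  congr 1
  omega

lemma tendsto_box : Filter.Tendsto box Filter.atTop Filter.atTop := by
  refine Filter.tendsto_atTop_finset_of_monotone ?_ ?_
  · intro M N hMN k hk
    rw [mem_box] at hk ⊢
    intro i
    have := hk i
    have h : (M : ℤ) ≤ N := by exact_mod_cast hMN
    omega
  · intro k
    refine ⟨(k 0).natAbs + (k 1).natAbs, ?_⟩
    rw [mem_box, Fin.forall_fin_two]
    omega

lemma nsq_of_notMem_box {N : ℕ} {k : Fin 2 → ℤ} (hk : k ∉ box N) : N ^ 2 ≤ nsq k := by
  rw [mem_box] at hk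
  push Not at hk
  obtain ⟨i, hi⟩ := hk
  have h : N ≤ (k i).natAbs := by
    by_cases h1 : -(N : ℤ) ≤ k i
    · have := hi h1; omega
    · omega
  have h2 : N ^ 2 ≤ (k i).natAbs ^ 2 := Nat.pow_le_pow_left h 2
  unfold nsq
  fin_cases i
  · simp at h2; omega
  · simp at h2; omega

/-- Under uniform growth all the traces of `e^{νΔ} U` on `L²₀` vanish. -/
theorem tsum_eq_zero {φ : T2 → T2} (hφ : MeasurePreserving φ (volume : Measure T2) volume)
    {C γ ν₀ : ℝ} (hC : 0 < C) (hγ : 1 < γ) (hG : Growth φ C γ ν₀) {ν : ℝ} (hν : 0 < ν)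
    (hν' : ν ≤ ν₀) :
    ∑' k : Fin 2 → ℤ, (if k = 0 then 0 else
      ((Real.exp (-(4 * Real.pi ^ 2 * ν)) : ℝ) : ℂ) ^ nsq k * uk φ k) = 0 := by
  classical
  set q : ℝ := Real.exp (-(4 * Real.pi ^ 2 * ν)) with hq
  have hq0 : 0 < q := Real.exp_pos _
  have hπ : 0 < 4 * Real.pi ^ 2 * ν := by positivity
  have hq1 : q < 1 := by rw [hq, Real.exp_lt_one_iff]; linarith
  set f : (Fin 2 → ℤ) → ℂ := fun k => if k = 0 then 0 else (q : ℂ) ^ nsq k * uk φ k with hf
  have hfs : Summable f := by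
    refine Summable.of_norm_bounded (summable_nsq q hq0.le hq1) fun k => ?_
    simp only [hf]
    split_ifs
    · simp; positivity
    · rw [norm_mul, norm_pow, Complex.norm_real, Real.norm_eq_abs, abs_of_pos hq0]
      calc q ^ nsq k * ‖uk φ k‖ ≤ q ^ nsq k * 1 := by gcongr; exact norm_uk_le φ hφ k
        _ = q ^ nsq k := mul_one _
  -- the heat operator
  obtain ⟨D, hD1, hD2⟩ := exists_diag bas (fun k => (Real.exp (-(ν * lam k)) : ℂ)) (fun k => by
    rw [exp_lam, ← hq]
    push_cast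
    rw [norm_pow, Complex.norm_real, Real.norm_eq_abs, abs_of_pos hq0]
    exact pow_le_one₀ hq0.le hq1.le)
  set T : L2T →L[ℂ] L2T := D * koop φ hφ with hT
  have hTn : ∀ v, ‖T v‖ ≤ ‖v‖ := fun v => by
    show ‖D (koop φ hφ v)‖ ≤ ‖v‖
    exact (hD1 _).trans (norm_koop φ hφ v).le
  -- constants
  obtain ⟨x, hx0, hx⟩ : ∃ x : ℝ, 0 < x ∧ (1 + x) ^ 2 = γ := by
    refine ⟨Real.sqrt γ - 1, ?_, ?_⟩
    · have : 1 < Real.sqrt γ := by
        rw [Real.lt_sqrt (by norm_num)]; simpa using hγ
      linarith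
    · rw [add_sub_cancel, Real.sq_sqrt (by linarith)]
  set c : ℝ := min (4 * Real.pi ^ 2 * ν) (ν * x ^ 2 / C) with hc
  have hc0 : 0 < c := lt_min hπ (by positivity)
  set R : ℕ → ℝ := fun N => 3 * Real.exp (-(c * N)) with hR
  have hbound : ∀ N : ℕ, 1 ≤ N →
      ‖∑ k ∈ (box N).erase 0, inner ℂ (bas k) (T (bas k))‖ ≤ ((box N).erase 0).card * R N := by
    intro N hN
    have hg1 : (x * N) ^ 2 ≤ γ ^ N := by
      rw [← hx, ← pow_mul, mul_comm 2 N, pow_mul]
      have := one_add_mul_le_pow (a := x) (by linarith) N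
      have h3 : x * N ≤ (1 + x) ^ N := by linarith
      exact pow_le_pow_left₀ (by positivity) h3 2
    have hc1 : c * N ^ 2 ≤ ν * γ ^ N / C := by
      calc c * N ^ 2 ≤ ν * x ^ 2 / C * N ^ 2 := by gcongr; exact min_le_right _ _
        _ = ν * (x * N) ^ 2 / C := by ring
        _ ≤ ν * γ ^ N / C := by gcongr
    have hc2 : c * N ^ 2 ≤ 4 * Real.pi ^ 2 * ν * N ^ 2 := by gcongr; exact min_le_left _ _
    refine trace_bound bas T hTn ((box N).erase 0) N (by omega) (q ^ (N ^ 2))
      (2 * Real.exp (-(ν * γ ^ N / C))) (R N) (by positivity) ?_ ?_ ?_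
    · have e1 : Real.exp (-(ν * γ ^ N / C)) ≤ Real.exp (-(c * N ^ 2)) :=
        Real.exp_le_exp.mpr (by linarith)
      have e2 : q ^ (N ^ 2) ≤ Real.exp (-(c * N ^ 2)) := by
        rw [hq, ← Real.exp_nat_mul]
        refine Real.exp_le_exp.mpr ?_
        push_cast
        nlinarith
      have e3 : (R N) ^ N = 3 ^ N * Real.exp (-(c * N ^ 2)) := by
        simp only [hR]
        rw [mul_pow, ← Real.exp_nat_mul]
        congr 2; ring
      rw [e3]
      have e4 : ∀ M : ℕ, 1 ≤ M → (M : ℝ) + 2 ≤ 3 ^ M := by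
        intro M hM
        induction M, hM using Nat.le_induction with
        | base => norm_num
        | succ M hM ih =>
          have hM' : (1 : ℝ) ≤ M := by exact_mod_cast hM
          rw [pow_succ]; push_cast; nlinarith
      calc 2 * Real.exp (-(ν * γ ^ N / C)) + N * q ^ (N ^ 2)
          ≤ 2 * Real.exp (-(c * N ^ 2)) + N * Real.exp (-(c * N ^ 2)) := by gcongr
        _ = ((N : ℝ) + 2) * Real.exp (-(c * N ^ 2)) := by ring
        _ ≤ 3 ^ N * Real.exp (-(c * N ^ 2)) := by gcongr; exact e4 N hN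
    · intro v r hv hr1 hr2
      -- `r` is `T v` outside of the box
      obtain ⟨w, hw1, hw2⟩ : ∃ w : L2T, ‖w‖ ≤ ‖v‖ ∧
          ∀ k, ‖bas.repr r k‖ ≤ q ^ (N ^ 2) * ‖bas.repr w k‖ := by
        refine ⟨koop φ hφ v, (norm_koop φ hφ v).le, fun k => ?_⟩
        by_cases hk : k ∈ (box N).erase 0
        · rw [hr1 k hk, norm_zero]; positivity
        · rw [hr2 k hk]
          show ‖bas.repr (D (koop φ hφ v)) k‖ ≤ _
          rw [hD2, norm_mul]
          by_cases hk0 : k = 0
          · subst hk0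
            have : bas.repr (koop φ hφ v) 0 = 0 := by
              rw [repr_zero_eq, integral_congr_ae (coeFn_koop φ hφ v)]
              have h1 : ∫ x, v (φ x) = ∫ x, v x := by
                have h2 : ∫ x, v x ∂(Measure.map φ volume) = ∫ x, v (φ x) := by
                  refine integral_map hφ.measurable.aemeasurable ?_
                  rw [hφ.map_eq]
                  exact (Lp.memLp v).aestronglyMeasurable
                rw [← h2, hφ.map_eq]
              rw [h1, ← repr_zero_eq]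
              exact hv 0 (by simp)
            rw [this]; simp
          · have hkb : k ∉ box N := fun h => hk (Finset.mem_erase.mpr ⟨hk0, h⟩)
            refine mul_le_mul_of_nonneg_right ?_ (norm_nonneg _)
            rw [exp_lam, ← hq]
            push_cast
            rw [norm_pow, Complex.norm_real, Real.norm_eq_abs, abs_of_pos hq0]
            exact pow_le_pow_of_le_one hq0.le hq1.le (nsq_of_notMem_box hkb)
      have h1 : ‖r‖ ≤ q ^ (N ^ 2) * ‖w‖ := by
        rw [← bas.repr.norm_map r]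
        refine lp.norm_le_of_tsum_le (by norm_num) (by positivity) ?_
        rw [Real.mul_rpow (by positivity) (norm_nonneg _), ← bas.repr.norm_map w,
          lp.norm_rpow_eq_tsum (by norm_num), ← tsum_mul_left]
        refine Summable.tsum_le_tsum (fun k => ?_)
          ((lp.memℓp (bas.repr r)).summable (by norm_num))
          (((lp.memℓp (bas.repr w)).summable (by norm_num)).mul_left _)
        rw [← Real.mul_rpow (by positivity) (norm_nonneg _)]
        exact Real.rpow_le_rpow (norm_nonneg _) (hw2 k) (by norm_num)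
      refine h1.trans ?_
      gcongr
    · intro v hv
      exact growth_operator hφ hG hν hν' D hD2 N hN v (hv 0 (by simp))
  have hsumeq : ∀ N, ∑ k ∈ (box N).erase 0, inner ℂ (bas k) (T (bas k)) = ∑ k ∈ box N, f k := by
    intro N
    have h0 : (0 : Fin 2 → ℤ) ∈ box N := by
      rw [mem_box]; intro i; simp
    rw [← Finset.add_sum_erase _ f h0]
    have : f 0 = 0 := by simp [hf]
    rw [this, zero_add]
    refine Finset.sum_congr rfl fun k hk => ?_
    have hk0 : k ≠ 0 := (Finset.mem_erase.mp hk).1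
    rw [← bas.repr_apply_apply]
    show bas.repr (D (koop φ hφ (bas k))) k = f k
    rw [hD2, bas.repr_apply_apply, inner_koop, exp_lam, ← hq]
    simp only [hf, hk0, if_false]
    push_cast
    rfl
  have hlim1 : Filter.Tendsto (fun N => ∑ k ∈ box N, f k) Filter.atTop (nhds (∑' k, f k)) :=
    hfs.hasSum.comp tendsto_box
  have hlim2 : Filter.Tendsto (fun N => ∑ k ∈ box N, f k) Filter.atTop (nhds 0) := by
    have hexp : |Real.exp (-c)| < 1 := by
      rw [abs_of_pos (Real.exp_pos _), Real.exp_lt_one_iff]; linarith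
    have h1 := (tendsto_pow_const_mul_const_pow_of_abs_lt_one 2 hexp).const_mul 27
    rw [mul_zero] at h1
    refine squeeze_zero_norm' ?_ h1
    filter_upwards [Filter.eventually_ge_atTop 1] with N hN
    rw [← hsumeq]
    refine (hbound N hN).trans ?_
    have hcard : (((box N).erase 0).card : ℝ) ≤ 9 * (N : ℝ) ^ 2 := by
      have h2 : ((box N).erase 0).card ≤ (box N).card := Finset.card_erase_le
      rw [card_box] at h2
      have h3 : (((box N).erase 0).card : ℝ) ≤ ((2 * N + 1 : ℕ) : ℝ) ^ 2 := by exact_mod_cast h2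
      refine h3.trans ?_
      push_cast
      have : (1 : ℝ) ≤ N := by exact_mod_cast hN
      nlinarith
    have hRN : R N = 3 * Real.exp (-c) ^ N := by
      simp only [hR]
      rw [← Real.exp_nat_mul]
      congr 2; ring
    rw [hRN]
    calc (((box N).erase 0).card : ℝ) * (3 * Real.exp (-c) ^ N)
        ≤ 9 * (N : ℝ) ^ 2 * (3 * Real.exp (-c) ^ N) := by gcongr
      _ = 27 * ((N : ℝ) ^ 2 * Real.exp (-c) ^ N) := by ring
  exact tendsto_nhds_unique hlim1 hlim2

end

end Q187.Pulse
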