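import Pool.Agent.Q187.Pulse.Basic

/-!
# The example: a smooth volume preserving conjugate of the cat map
-/

open MeasureTheory UnitAddTorus
open scoped ContDiff ComplexConjugate

attribute [local instance] instMeasureSpaceUnitAddCircle
attribute [local instance] instIsAddHaarMeasureUnitAddCircleVolume
attribute [local instance] instIsProbabilityMeasureUnitAddCircleVolume

namespace Q187.Pulse

noncomputable section

/-- `sin(2πt)/(2π)` as a function on the circle. -/
def sr (t : UnitAddCircle) : ℝ := (fourier 1 t : ℂ).im / (2 * Real.pi)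

lemma sr_coe (t : ℝ) : sr (t : UnitAddCircle) = Real.sin (2 * Real.pi * t) / (2 * Real.pi) := by
  unfold sr
  rw [fourier_coe_apply]
  congr 1
  have : (2 * (Real.pi : ℂ) * Complex.I * ((1 : ℤ) : ℂ) * (t : ℂ) / ((1 : ℝ) : ℂ))
      = ((2 * Real.pi * t : ℝ) : ℂ) * Complex.I := by
    push_cast; ring
  rw [this, Complex.exp_ofReal_mul_I_im]

lemma continuous_sr : Continuous sr := by
  unfold sr
  fun_prop

/-- The shear `(x,y) ↦ (x, y + sin(2πx)/(2π))`. -/
def hFun (x : T2) : T2 := ![x 0, x 1 + ((sr (x 0) : ℝ) : UnitAddCircle)]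

/-- Its inverse. -/
def hInv (x : T2) : T2 := ![x 0, x 1 - ((sr (x 0) : ℝ) : UnitAddCircle)]

/-- The cat map `(x,y) ↦ (2x+y, x+y)`. -/
def aFun (x : T2) : T2 := ![2 • x 0 + x 1, x 0 + x 1]

/-- Its inverse. -/
def aInv (x : T2) : T2 := ![x 0 - x 1, 2 • x 1 - x 0]

@[simp] lemma hFun_zero (x : T2) : hFun x 0 = x 0 := rfl
@[simp] lemma hFun_one (x : T2) : hFun x 1 = x 1 + ((sr (x 0) : ℝ) : UnitAddCircle) := rfl
@[simp] lemma hInv_zero (x : T2) : hInv x 0 = x 0 := rfl
@[simp] lemma hInv_one (x : T2) : hInv x 1 = x 1 - ((sr (x 0) : ℝ) : UnitAddCircle) := rfl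
@[simp] lemma aFun_zero (x : T2) : aFun x 0 = 2 • x 0 + x 1 := rfl
@[simp] lemma aFun_one (x : T2) : aFun x 1 = x 0 + x 1 := rfl
@[simp] lemma aInv_zero (x : T2) : aInv x 0 = x 0 - x 1 := rfl
@[simp] lemma aInv_one (x : T2) : aInv x 1 = 2 • x 1 - x 0 := rfl

lemma hInv_hFun (x : T2) : hInv (hFun x) = x := by
  funext i; fin_cases i
  · simp
  · simp

lemma hFun_hInv (x : T2) : hFun (hInv x) = x := by
  funext i; fin_cases i
  · simp
  · simp

lemma aInv_aFun (x : T2) : aInv (aFun x) = x := by
  funext i; fin_cases i
  · simp [two_smul]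
  · simp [two_smul]

lemma aFun_aInv (x : T2) : aFun (aInv x) = x := by
  funext i; fin_cases i
  · simp [two_smul]; abel
  · simp [two_smul]

lemma continuous_coeCircle : Continuous fun r : ℝ => (r : UnitAddCircle) :=
  AddCircle.continuous_mk' 1

lemma continuous_hFun : Continuous hFun := by
  refine continuous_pi fun i => ?_
  fin_cases i
  · exact continuous_apply 0
  · exact (continuous_apply 1).add
      (continuous_coeCircle.comp (continuous_sr.comp (continuous_apply 0)))

lemma continuous_hInv : Continuous hInv := by
  refine continuous_pi fun i => ?_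
  fin_cases i
  · exact continuous_apply 0
  · exact (continuous_apply 1).sub
      (continuous_coeCircle.comp (continuous_sr.comp (continuous_apply 0)))

lemma continuous_aFun : Continuous aFun := by
  refine continuous_pi fun i => ?_
  fin_cases i
  · exact ((continuous_apply 0).nsmul 2).add (continuous_apply 1)
  · exact (continuous_apply 0).add (continuous_apply 1)

lemma continuous_aInv : Continuous aInv := by
  refine continuous_pi fun i => ?_
  fin_cases i
  · exact (continuous_apply 0).sub (continuous_apply 1)
  · exact ((continuous_apply 1).nsmul 2).sub (continuous_apply 0)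

/-- The shear as a homeomorphism. -/
def hHomeo : T2 ≃ₜ T2 where
  toFun := hFun
  invFun := hInv
  left_inv := hInv_hFun
  right_inv := hFun_hInv
  continuous_toFun := continuous_hFun
  continuous_invFun := continuous_hInv

/-- The cat map as a homeomorphism. -/
def aHomeo : T2 ≃ₜ T2 where
  toFun := aFun
  invFun := aInv
  left_inv := aInv_aFun
  right_inv := aFun_aInv
  continuous_toFun := continuous_aFun
  continuous_invFun := continuous_aInv

/-- The example `φ = h ∘ A ∘ h⁻¹`. -/
def phi : T2 ≃ₜ T2 := (hHomeo.symm.trans aHomeo).trans hHomeo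

lemma phi_apply (x : T2) : phi x = hFun (aFun (hInv x)) := rfl

lemma phi_symm_apply (x : T2) : phi.symm x = hFun (aInv (hInv x)) := rfl

lemma phi_hFun (x : T2) : phi (hFun x) = hFun (aFun x) := by
  rw [phi_apply, hInv_hFun]

lemma phi_iter_hFun (n : ℕ) (x : T2) : phi^[n] (hFun x) = hFun (aFun^[n] x) := by
  induction n generalizing x with
  | zero => rfl
  | succ n ih => rw [Function.iterate_succ_apply, Function.iterate_succ_apply, phi_hFun, ih]

/-! ### Smoothness -/

lemma IsSmoothMap.comp {φ ψ : T2 → T2} (hφ : IsSmoothMap φ) (hψ : IsSmoothMap ψ) :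
    IsSmoothMap (fun x => φ (ψ x)) := by
  obtain ⟨F, hF, hF'⟩ := hφ
  obtain ⟨G, hG, hG'⟩ := hψ
  exact ⟨fun x => F (G x), hF.comp hG, fun x => by show φ (ψ (proj x)) = proj (F (G x)); rw [hG', hF']⟩

lemma isSmoothMap_hFun : IsSmoothMap hFun := by
  refine ⟨fun x => ![x 0, x 1 + Real.sin (2 * Real.pi * x 0) / (2 * Real.pi)], ?_, fun x => ?_⟩
  · rw [contDiff_pi]
    intro i; fin_cases i
    · simp; fun_prop
    · simp; fun_prop
  · funext i; fin_cases i
    · simp [proj]
    · simp [proj, sr_coe]

lemma isSmoothMap_hInv : IsSmoothMap hInv := by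
  refine ⟨fun x => ![x 0, x 1 - Real.sin (2 * Real.pi * x 0) / (2 * Real.pi)], ?_, fun x => ?_⟩
  · rw [contDiff_pi]
    intro i; fin_cases i
    · simp; fun_prop
    · simp; fun_prop
  · funext i; fin_cases i
    · simp [proj]
    · simp [proj, sr_coe]

lemma isSmoothMap_aFun : IsSmoothMap aFun := by
  refine ⟨fun x => ![x 0 + x 0 + x 1, x 0 + x 1], ?_, fun x => ?_⟩
  · rw [contDiff_pi]
    intro i; fin_cases i
    · simp; fun_prop
    · simp; fun_prop
  · funext i; fin_cases i
    · simp [proj, two_smul]
    · simp [proj]

lemma isSmoothMap_aInv : IsSmoothMap aInv := by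
  refine ⟨fun x => ![x 0 - x 1, x 1 + x 1 - x 0], ?_, fun x => ?_⟩
  · rw [contDiff_pi]
    intro i; fin_cases i
    · simp; fun_prop
    · simp; fun_prop
  · funext i; fin_cases i
    · simp [proj]
    · simp [proj, two_smul]

lemma isSmoothDiffeo_phi : IsSmoothDiffeo phi :=
  ⟨isSmoothMap_hFun.comp (isSmoothMap_aFun.comp isSmoothMap_hInv),
    isSmoothMap_hFun.comp (isSmoothMap_aInv.comp isSmoothMap_hInv)⟩

/-! ### Invariance of Lebesgue measure -/

/-- The cat map as a homomorphism. -/
def aHom : T2 →+ T2 where
  toFun := aFun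
  map_zero' := by funext i; fin_cases i <;> simp
  map_add' x y := by
    funext i; fin_cases i
    · simp [two_smul]; abel
    · simp; abel

lemma measurePreserving_aFun :
    MeasurePreserving aFun (volume : Measure T2) (volume : Measure T2) := by
  have : MeasurePreserving (⇑aHom) (volume : Measure T2) (volume : Measure T2) :=
    AddMonoidHom.measurePreserving (f := aHom) continuous_aFun
      (fun y => ⟨aInv y, aFun_aInv y⟩) rfl
  exact this

lemma measurePreserving_hFun :
    MeasurePreserving hFun (volume : Measure T2) (volume : Measure T2) := by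
  have e := measurePreserving_finTwoArrow (volume : Measure UnitAddCircle)
  have s : MeasurePreserving
      (fun p : UnitAddCircle × UnitAddCircle =>
        (id p.1, (fun (a c : UnitAddCircle) => c + ((sr a : ℝ) : UnitAddCircle)) p.1 p.2))
      ((volume : Measure UnitAddCircle).prod volume)
      ((volume : Measure UnitAddCircle).prod volume) := by
    refine MeasurePreserving.skew_product (MeasurePreserving.id (volume : Measure UnitAddCircle))
      (g := fun (a c : UnitAddCircle) => c + ((sr a : ℝ) : UnitAddCircle))
      (μc := (volume : Measure UnitAddCircle)) (μd := (volume : Measure UnitAddCircle)) ?_ ?_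
    · have hc : Continuous (fun p : UnitAddCircle × UnitAddCircle =>
          p.2 + ((sr p.1 : ℝ) : UnitAddCircle)) :=
        continuous_snd.add (continuous_coeCircle.comp (continuous_sr.comp continuous_fst))
      exact hc.measurable
    · refine Filter.Eventually.of_forall fun a => ?_
      exact (measurePreserving_add_right (volume : Measure UnitAddCircle)
        ((sr a : ℝ) : UnitAddCircle)).map_eq
  have := (e.symm).comp (s.comp e)
  have h2 : (⇑(MeasurableEquiv.finTwoArrow (α := UnitAddCircle)).symm ∘
      (fun p : UnitAddCircle × UnitAddCircle =>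
        (id p.1, (fun (a c : UnitAddCircle) => c + ((sr a : ℝ) : UnitAddCircle)) p.1 p.2)) ∘
      ⇑(MeasurableEquiv.finTwoArrow (α := UnitAddCircle))) = hFun := by
    funext x i
    fin_cases i <;> rfl
  rw [h2] at this
  exact this

lemma measurePreserving_hInv :
    MeasurePreserving hInv (volume : Measure T2) (volume : Measure T2) := by
  have : MeasurePreserving hHomeo.toMeasurableEquiv (volume : Measure T2)
      (volume : Measure T2) := measurePreserving_hFun
  exact this.symm

lemma measurePreserving_aInv :
    MeasurePreserving aInv (volume : Measure T2) (volume : Measure T2) := by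
  have : MeasurePreserving aHomeo.toMeasurableEquiv (volume : Measure T2)
      (volume : Measure T2) := measurePreserving_aFun
  exact this.symm

lemma measurePreserving_phi :
    MeasurePreserving phi (volume : Measure T2) (volume : Measure T2) :=
  measurePreserving_hFun.comp (measurePreserving_aFun.comp measurePreserving_hInv)

lemma integral_comp_hFun {E : Type*} [NormedAddCommGroup E] [NormedSpace ℝ E] (F : T2 → E) :
    ∫ x, F (hFun x) = ∫ x, F x :=
  measurePreserving_hFun.integral_comp hHomeo.measurableEmbedding F

lemma integral_comp_aFun {E : Type*} [NormedAddCommGroup E] [NormedSpace ℝ E] (F : T2 → E) :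
    ∫ x, F (aFun x) = ∫ x, F x :=
  measurePreserving_aFun.integral_comp aHomeo.measurableEmbedding F

lemma integral_comp_phi {E : Type*} [NormedAddCommGroup E] [NormedSpace ℝ E] (F : T2 → E) :
    ∫ x, F (phi x) = ∫ x, F x :=
  measurePreserving_phi.integral_comp phi.measurableEmbedding F

end

end Q187.Pulse
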