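import Pool.Agent.Q187.Pulse.Coef

/-!
# The example is exponentially mixing
-/

open MeasureTheory UnitAddTorus
open scoped ContDiff ComplexConjugate

attribute [local instance] instMeasureSpaceUnitAddCircle
attribute [local instance] instIsAddHaarMeasureUnitAddCircleVolume
attribute [local instance] instIsProbabilityMeasureUnitAddCircleVolume

namespace Q187.Pulse

noncomputable section

lemma measurePreserving_phi_iter (n : ℕ) :
    MeasurePreserving (phi^[n]) (volume : Measure T2) (volume : Measure T2) :=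
  measurePreserving_phi.iterate n

open Real in
lemma inner_koop_iter_le (n : ℕ) {k l : Fin 2 → ℤ} (hk : k ≠ 0) (hl : l ≠ 0) :
    ‖inner ℂ (bas l) (koop _ (measurePreserving_phi_iter n) (bas k))‖ ≤
      8 * (n1 k * n1 l) / (goldenRatio ^ 2) ^ n := by
  refine le_trans (le_of_eq ?_) (corr_le n hk hl)
  congr 1
  have e1 : ∫ y : T2, conj (Fk l y) * Fk k (aFun^[n] y)
      = ∫ x : T2, conj (mFourier l x) * mFourier k (phi^[n] x) := by
    rw [← integral_comp_hFun (fun x => conj (mFourier l x) * mFourier k (phi^[n] x))]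
    refine integral_congr_ae (Filter.Eventually.of_forall fun y => ?_)
    simp only [Fk, phi_iter_hFun]
  rw [e1, L2.inner_def]
  refine integral_congr_ae ?_
  have h1 : ∀ j, (bas j : L2T) =ᵐ[volume] mFourier j := by
    intro j
    rw [show bas j = mFourierLp 2 j from congrFun coe_mFourierBasis j]
    exact coeFn_mFourierLp 2 j
  filter_upwards [h1 l, coeFn_koop _ (measurePreserving_phi_iter n) (bas k),
    ae_comp (measurePreserving_phi_iter n) (h1 k)] with x h2 h3 h4
  rw [h3, h4, h2, RCLike.inner_apply]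
  ring

open Real in
/-- Correlations of `L²` elements with summable weighted coefficients. -/
lemma inner_le_of_summable (n : ℕ) (f g : L2T) (hf0 : bas.repr f 0 = 0) (hg0 : bas.repr g 0 = 0)
    (hf : Summable fun k => n1 k * ‖bas.repr f k‖) (hg : Summable fun k => n1 k * ‖bas.repr g k‖) :
    ‖inner ℂ g (koop _ (measurePreserving_phi_iter n) f)‖ ≤
      8 / (goldenRatio ^ 2) ^ n * (∑' k, n1 k * ‖bas.repr f k‖) *
        (∑' k, n1 k * ‖bas.repr g k‖) := by
  set U := koop _ (measurePreserving_phi_iter n) with hU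
  set L : ℝ := (goldenRatio ^ 2) ^ n with hL
  have hLpos : 0 < L := by have := goldenRatio_pos; positivity
  set Gs : ℝ := ∑' k, n1 k * ‖bas.repr g k‖ with hGs
  have hGs0 : 0 ≤ Gs := tsum_nonneg fun k => mul_nonneg (n1_nonneg k) (norm_nonneg _)
  -- one basis vector on the right
  have step : ∀ k, k ≠ 0 → ‖inner ℂ g (U (bas k))‖ ≤ 8 / L * n1 k * Gs := by
    intro k hk
    have h1 : HasSum (fun l => inner ℂ (bas.repr g l • bas l) (U (bas k)))
        (inner ℂ g (U (bas k))) := by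
      have h2 := (bas.hasSum_repr g).mapL (innerSL ℂ (U (bas k)))
      simp only [innerSL_apply_apply] at h2
      have h3 := h2.star
      simpa only [RCLike.star_def, inner_conj_symm] using h3
    rw [← h1.tsum_eq]
    refine tsum_of_norm_bounded (hg.hasSum.mul_left (8 / L * n1 k)) fun l => ?_
    rw [inner_smul_left, norm_mul, RCLike.norm_conj]
    by_cases hl : l = 0
    · rw [hl, hg0]; simp
    · have h4 := inner_koop_iter_le n hk hl
      calc ‖bas.repr g l‖ * ‖inner ℂ (bas l) (U (bas k))‖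
          ≤ ‖bas.repr g l‖ * (8 * (n1 k * n1 l) / L) := by gcongr
        _ = 8 / L * n1 k * (n1 l * ‖bas.repr g l‖) := by ring
  have h1 : HasSum (fun k => inner ℂ g (U (bas.repr f k • bas k))) (inner ℂ g (U f)) := by
    have h2 := (bas.hasSum_repr f).mapL ((innerSL ℂ g).comp U)
    simpa only [ContinuousLinearMap.comp_apply, innerSL_apply_apply] using h2
  rw [← h1.tsum_eq]
  have hF := (hf.hasSum.mul_left (8 / L)).mul_right Gs
  refine tsum_of_norm_bounded hF fun k => ?_
  rw [map_smul, inner_smul_right, norm_mul]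
  by_cases hk : k = 0
  · rw [hk, hf0]; simp
  · calc ‖bas.repr f k‖ * ‖inner ℂ g (U (bas k))‖
        ≤ ‖bas.repr f k‖ * (8 / L * n1 k * Gs) := by gcongr; exact step k hk
      _ = 8 / L * (n1 k * ‖bas.repr f k‖) * Gs := by ring

/-- the weights -/
def Wt (k : Fin 2 → ℤ) : ℝ := if k = 0 then 0 else n1 k / Real.sqrt (lam k ^ (3 : ℝ))

lemma nsq_real (k : Fin 2 → ℤ) : (nsq k : ℝ) = (k 0 : ℝ) ^ 2 + (k 1 : ℝ) ^ 2 := by
  unfold nsq; push_cast; simp [Nat.cast_natAbs, sq_abs]

lemma one_le_nsq {k : Fin 2 → ℤ} (hk : k ≠ 0) : (1 : ℝ) ≤ nsq k := by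
  have : 1 ≤ nsq k := by
    by_contra h
    have h0 : nsq k = 0 := by omega
    unfold nsq at h0
    apply hk
    have h1 : (k 0).natAbs ^ 2 = 0 := by omega
    have h2 : (k 1).natAbs ^ 2 = 0 := by omega
    have h3 : k 0 = 0 := by simpa using h1
    have h4 : k 1 = 0 := by simpa using h2
    funext i; fin_cases i
    · exact h3
    · exact h4
  exact_mod_cast this

lemma summable_Wt : Summable fun k => Wt k ^ (2 : ℝ) := by
  have hZ : Summable fun j : ℤ => 1 / (1 + (j : ℝ) ^ 2) := by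
    refine Summable.of_norm_bounded_eventually
      ((Real.summable_one_div_int_pow (p := 2)).mpr (by norm_num)) ?_
    filter_upwards [(Set.finite_singleton (0 : ℤ)).compl_mem_cofinite] with j hj
    have hj' : (j : ℝ) ≠ 0 := by exact_mod_cast hj
    have hj2 : 0 < (j : ℝ) ^ 2 := by positivity
    rw [Real.norm_eq_abs, abs_of_pos (by positivity)]
    exact one_div_le_one_div_of_le hj2 (by linarith)
  have hP := hZ.mul_of_nonneg hZ (fun j => by positivity) (fun j => by positivity)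
  rw [← (finTwoArrowEquiv ℤ).summable_iff] at hP
  refine Summable.of_nonneg_of_le (fun k => by rw [Real.rpow_two]; positivity)
    (fun k => ?_) (hP.mul_left 8)
  rw [Real.rpow_two]
  show Wt k ^ 2 ≤ 8 * (1 / (1 + (k 0 : ℝ) ^ 2) * (1 / (1 + (k 1 : ℝ) ^ 2)))
  unfold Wt
  split_ifs with hk
  · rw [zero_pow (by norm_num)]; positivity
  · have h1 := one_le_nsq hk
    have hlam : lam k = 4 * Real.pi ^ 2 * (nsq k : ℝ) := lam_eq k
    have hpi : (1 : ℝ) ≤ 4 * Real.pi ^ 2 := by nlinarith [Real.pi_gt_three]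
    have hl1 : (nsq k : ℝ) ≤ lam k := by rw [hlam]; nlinarith
    have hl0 : 0 < lam k := by linarith
    have hpow : (nsq k : ℝ) ^ 3 ≤ lam k ^ (3 : ℝ) := by
      rw [show (3 : ℝ) = ((3 : ℕ) : ℝ) by norm_num, Real.rpow_natCast]
      gcongr
    rw [div_pow, Real.sq_sqrt (by positivity)]
    have hn : n1 k ^ 2 ≤ 2 * nsq k := by
      rw [nsq_real]
      unfold n1
      have e0 := sq_abs (k 0 : ℝ)
      have e1 := sq_abs (k 1 : ℝ)
      nlinarith [sq_nonneg (|(k 0 : ℝ)| - |(k 1 : ℝ)|)]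
    have hnp : 0 < (nsq k : ℝ) := by linarith
    calc n1 k ^ 2 / lam k ^ (3 : ℝ) ≤ (2 * nsq k) / (nsq k : ℝ) ^ 3 := by gcongr
      _ = 2 / (nsq k : ℝ) ^ 2 := by field_simp
      _ ≤ 8 / ((1 + (k 0 : ℝ) ^ 2) * (1 + (k 1 : ℝ) ^ 2)) := by
        rw [div_le_div_iff₀ (by positivity) (by positivity)]
        have h2 := nsq_real k
        have a0 := sq_nonneg (k 0 : ℝ)
        have a1 := sq_nonneg (k 1 : ℝ)
        have h3 : 1 + (k 0 : ℝ) ^ 2 ≤ 2 * nsq k := by linarith
        have h4 : 1 + (k 1 : ℝ) ^ 2 ≤ 2 * nsq k := by linarith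
        calc 2 * ((1 + (k 0 : ℝ) ^ 2) * (1 + (k 1 : ℝ) ^ 2))
            ≤ 2 * ((2 * nsq k) * (2 * nsq k)) := by gcongr
          _ = 8 * (nsq k : ℝ) ^ 2 := by ring
      _ = 8 * (1 / (1 + (k 0 : ℝ) ^ 2) * (1 / (1 + (k 1 : ℝ) ^ 2))) := by
        field_simp

/-- the constant in the weighted Cauchy–Schwarz inequality -/
def C0 : ℝ := (∑' k, Wt k ^ (2 : ℝ)) ^ (1 / 2 : ℝ)

lemma C0_nonneg : 0 ≤ C0 := by
  unfold C0
  exact Real.rpow_nonneg (tsum_nonneg fun k => by rw [Real.rpow_two]; positivity) _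

lemma weighted (f : T2 → ℂ) (h0 : mFourierCoeff f 0 = 0)
    (hs : Summable fun k : Fin 2 → ℤ => lam k ^ (3 : ℝ) * ‖mFourierCoeff f k‖ ^ 2) :
    (Summable fun k => n1 k * ‖mFourierCoeff f k‖) ∧
      ∑' k, n1 k * ‖mFourierCoeff f k‖ ≤ C0 * sobNorm 3 f := by
  set s : (Fin 2 → ℤ) → ℝ := fun k => Real.sqrt (lam k ^ (3 : ℝ)) * ‖mFourierCoeff f k‖ with hsdef
  have hlam0 : ∀ k, 0 ≤ lam k := fun k => by unfold lam; positivity
  have hs2 : ∀ k, s k ^ (2 : ℝ) = lam k ^ (3 : ℝ) * ‖mFourierCoeff f k‖ ^ 2 := by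
    intro k
    simp only [hsdef]
    rw [Real.rpow_two, mul_pow, Real.sq_sqrt (Real.rpow_nonneg (hlam0 k) _)]
  have hprod : ∀ k, Wt k * s k = n1 k * ‖mFourierCoeff f k‖ := by
    intro k
    simp only [hsdef]
    unfold Wt
    split_ifs with hk
    · rw [hk, h0]; simp
    · have : 0 < lam k := by
        rw [lam_eq]
        have := one_le_nsq hk
        have := Real.pi_pos
        positivity
      have h2 : Real.sqrt (lam k ^ (3 : ℝ)) ≠ 0 := by positivity
      field_simp
  have hW0 : ∀ k, 0 ≤ Wt k := by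
    intro k; unfold Wt
    split_ifs
    · exact le_rfl
    · exact div_nonneg (n1_nonneg k) (Real.sqrt_nonneg _)
  have hs0 : ∀ k, 0 ≤ s k := fun k => by simp only [hsdef]; positivity
  have hss : Summable fun k => s k ^ (2 : ℝ) := by
    simp_rw [hs2]; exact hs
  have h1 := Real.summable_mul_of_Lp_Lq_of_nonneg Real.HolderConjugate.two_two hW0 hs0
    summable_Wt hss
  have h2 := Real.inner_le_Lp_mul_Lq_tsum_of_nonneg Real.HolderConjugate.two_two hW0 hs0
    summable_Wt hss
  simp_rw [hprod] at h1 h2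
  refine ⟨h1, h2.trans (le_of_eq ?_)⟩
  unfold C0 sobNorm
  rw [Real.sqrt_eq_rpow]
  simp_rw [hs2]

open Real in
theorem expMixing_phi : ExpMixing phi := by
  have hφ1 : 1 < goldenRatio ^ 2 := by
    rw [goldenRatio_sq]; have := goldenRatio_pos; linarith
  refine ⟨3, 3, 8 * C0 ^ 2 + 1, Real.log (goldenRatio ^ 2), by norm_num, by norm_num,
    by have := C0_nonneg; positivity, Real.log_pos hφ1, ?_⟩
  intro n f g hf hg
  obtain ⟨hf1, hf2, hf3⟩ := hf
  obtain ⟨hg1, hg2, hg3⟩ := hg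
  have hf0 : mFourierCoeff f 0 = 0 := by
    unfold mFourierCoeff; rw [neg_zero, mFourier_zero]; simpa using hf2
  have hg0 : mFourierCoeff g 0 = 0 := by
    unfold mFourierCoeff; rw [neg_zero, mFourier_zero]; simpa using hg2
  obtain ⟨wf1, wf2⟩ := weighted f hf0 hf3
  obtain ⟨wg1, wg2⟩ := weighted g hg0 hg3
  have rf : ∀ k, bas.repr (hf1.toLp f) k = mFourierCoeff f k := fun k => by
    rw [mFourierBasis_repr, mFourierCoeff_congr hf1.coeFn_toLp]
  have rg : ∀ k, bas.repr (hg1.toLp g) k = mFourierCoeff g k := fun k => by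
    rw [mFourierBasis_repr, mFourierCoeff_congr hg1.coeFn_toLp]
  have key := inner_le_of_summable n (hf1.toLp f) (hg1.toLp g) (by rw [rf, hf0])
    (by rw [rg, hg0]) (by simpa only [rf] using wf1) (by simpa only [rg] using wg1)
  simp only [rf, rg] at key
  have e1 : inner ℂ (hg1.toLp g) (koop _ (measurePreserving_phi_iter n) (hf1.toLp f))
      = ∫ x, f (phi^[n] x) * conj (g x) := by
    rw [L2.inner_def]
    refine integral_congr_ae ?_
    filter_upwards [hg1.coeFn_toLp, coeFn_koop _ (measurePreserving_phi_iter n) (hf1.toLp f),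
      ae_comp (measurePreserving_phi_iter n) hf1.coeFn_toLp] with x h1 h2 h3
    rw [h2, h3, h1, RCLike.inner_apply]
  rw [e1] at key
  refine key.trans ?_
  have hexp : Real.exp (-(Real.log (goldenRatio ^ 2) * n)) = 1 / (goldenRatio ^ 2) ^ n := by
    rw [Real.exp_neg, mul_comm, ← Real.log_pow, Real.exp_log (by positivity), one_div]
  have hL : 0 < (goldenRatio ^ 2) ^ n := by positivity
  have sf : 0 ≤ sobNorm 3 f := Real.sqrt_nonneg _
  have sg : 0 ≤ sobNorm 3 g := Real.sqrt_nonneg _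
  have hC := C0_nonneg
  have tf : 0 ≤ ∑' k, n1 k * ‖mFourierCoeff f k‖ :=
    tsum_nonneg fun k => mul_nonneg (n1_nonneg k) (norm_nonneg _)
  have tg : 0 ≤ ∑' k, n1 k * ‖mFourierCoeff g k‖ :=
    tsum_nonneg fun k => mul_nonneg (n1_nonneg k) (norm_nonneg _)
  rw [hexp]
  calc 8 / (goldenRatio ^ 2) ^ n * (∑' k, n1 k * ‖mFourierCoeff f k‖) *
        (∑' k, n1 k * ‖mFourierCoeff g k‖)
      ≤ 8 / (goldenRatio ^ 2) ^ n * (C0 * sobNorm 3 f) * (C0 * sobNorm 3 g) := by gcongr
    _ = 8 * C0 ^ 2 * (1 / (goldenRatio ^ 2) ^ n) * sobNorm 3 f * sobNorm 3 g := by ring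
    _ ≤ (8 * C0 ^ 2 + 1) * (1 / (goldenRatio ^ 2) ^ n) * sobNorm 3 f * sobNorm 3 g := by
        gcongr
        linarith

end

end Q187.Pulse
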